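import Mathlib

/-! The constant 2 in the bound |H| <= 2|G|^2 for adjoining square roots to a finite group is
sharp: c* = 2. -/

namespace Pool.Agent.Results.MP_a87126_al.Sharp

universe u

section part_J

open Module

/-- commutator estimate in a normed ring -/
lemma norm_commutator_sub_one_le {M E : Type*} [Group M] [NormedRing E]
    (π : M →* E) (hπ : ∀ g, ‖π g‖ ≤ 1) (g h : M) :
    ‖π (g * h * g⁻¹ * h⁻¹) - 1‖ ≤ 2 * ‖π g - 1‖ * ‖π h - 1‖ := by
  have e1 : π (g * h * g⁻¹ * h⁻¹) - 1
      = ((π g - 1) * (π h - 1) - (π h - 1) * (π g - 1)) * π (g⁻¹ * h⁻¹) := by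
    have h1 : π (g * h * g⁻¹ * h⁻¹) = π g * π h * π (g⁻¹ * h⁻¹) := by
      rw [← map_mul, ← map_mul]; congr 1; group
    have h2 : (1 : E) = π h * π g * π (g⁻¹ * h⁻¹) := by
      rw [← map_mul, ← map_mul, ← map_one π]; congr 1; group
    rw [h1]
    nth_rewrite 1 [h2]
    rw [← sub_mul]
    congr 1
    noncomm_ring
  rw [e1]
  calc ‖((π g - 1) * (π h - 1) - (π h - 1) * (π g - 1)) * π (g⁻¹ * h⁻¹)‖
      ≤ ‖(π g - 1) * (π h - 1) - (π h - 1) * (π g - 1)‖ * ‖π (g⁻¹ * h⁻¹)‖ := norm_mul_le _ _
    _ ≤ ‖(π g - 1) * (π h - 1) - (π h - 1) * (π g - 1)‖ * 1 := by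
        gcongr; exact hπ _
    _ ≤ (‖(π g - 1) * (π h - 1)‖ + ‖(π h - 1) * (π g - 1)‖) := by
        rw [mul_one]; exact norm_sub_le _ _
    _ ≤ ‖π g - 1‖ * ‖π h - 1‖ + ‖π h - 1‖ * ‖π g - 1‖ := by
        gcongr <;> exact norm_mul_le _ _
    _ = 2 * ‖π g - 1‖ * ‖π h - 1‖ := by ring

lemma norm_conj_sub_one_le {M E : Type*} [Group M] [NormedRing E]
    (π : M →* E) (hπ : ∀ g, ‖π g‖ ≤ 1) (k h : M) :
    ‖π (k * h * k⁻¹) - 1‖ ≤ ‖π h - 1‖ := by
  have e1 : π (k * h * k⁻¹) - 1 = π k * (π h - 1) * π k⁻¹ := by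
    have h2 : (1 : E) = π k * π k⁻¹ := by
      rw [← map_mul, ← map_one π]; congr 1; group
    rw [mul_sub, sub_mul, mul_one, ← h2, ← map_mul, ← map_mul]
  rw [e1]
  calc ‖π k * (π h - 1) * π k⁻¹‖ ≤ ‖π k * (π h - 1)‖ * ‖π k⁻¹‖ := norm_mul_le _ _
    _ ≤ (‖π k‖ * ‖π h - 1‖) * ‖π k⁻¹‖ := by gcongr; exact norm_mul_le _ _
    _ ≤ (1 * ‖π h - 1‖) * 1 := by
        gcongr
        · exact hπ _
        · exact hπ _
    _ = ‖π h - 1‖ := by ring

/-- A finite nonabelian simple group acting faithfully by contractions in a normed algebra of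
real dimension `D` has no elements of prime order larger than `5 ^ D`. -/
theorem jordan_simple {M E : Type*} [Group M] [Finite M] [IsSimpleGroup M]
    [NormedRing E] [NormedAlgebra ℝ E] [FiniteDimensional ℝ E]
    (π : M →* E) (hinj : Function.Injective π) (hπ : ∀ g, ‖π g‖ ≤ 1)
    (hna : ¬ ∀ a b : M, a * b = b * a)
    (x : M) : orderOf x ≤ 5 ^ finrank ℝ E := by
  classical
  by_contra hlt
  push Not at hlt
  -- two powers of x are close
  let s : Finset E := (Finset.range (orderOf x)).image (fun k => (2 : ℝ) • π (x ^ k))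
  have hscard : s.card = orderOf x := by
    rw [Finset.card_image_of_injOn, Finset.card_range]
    intro k hk l hl hkl
    simp only [Finset.coe_range, Set.mem_Iio] at hk hl
    have h1 : π (x ^ k) = π (x ^ l) := smul_right_injective E (two_ne_zero (α := ℝ)) hkl
    exact pow_injOn_Iio_orderOf hk hl (hinj h1)
  have hs : ∀ c ∈ s, ‖c‖ ≤ 2 := by
    intro c hc
    simp only [s, Finset.mem_image] at hc
    obtain ⟨k, -, rfl⟩ := hc
    rw [norm_smul]
    have := hπ (x ^ k)
    simp only [Real.norm_ofNat]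
    linarith
  have hex : ∃ c ∈ s, ∃ d ∈ s, c ≠ d ∧ ‖c - d‖ < 1 := by
    by_contra hcon
    push Not at hcon
    have := Besicovitch.card_le_of_separated s hs (fun c hc d hd hcd => hcon c hc d hd hcd)
    omega
  obtain ⟨c, hc, d, hd, hcd, hlt1⟩ := hex
  simp only [s, Finset.mem_image] at hc hd
  obtain ⟨k, -, rfl⟩ := hc
  obtain ⟨l, -, rfl⟩ := hd
  have hkl : x ^ k ≠ x ^ l := fun h => hcd (by rw [h])
  let u : M := x ^ k * (x ^ l)⁻¹
  have hu1 : u ≠ 1 := by
    intro h
    exact hkl (mul_inv_eq_one.mp h)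
  have hu2 : ‖π u - 1‖ < 1 / 2 := by
    have e1 : π u - 1 = (π (x ^ k) - π (x ^ l)) * π ((x ^ l)⁻¹) := by
      have h2 : (1 : E) = π (x ^ l) * π ((x ^ l)⁻¹) := by
        rw [← map_mul, ← map_one π]; congr 1; group
      rw [sub_mul, ← h2, ← map_mul]
    have e2 : ‖π (x ^ k) - π (x ^ l)‖ < 1 / 2 := by
      rw [← smul_sub, norm_smul] at hlt1
      simp only [Real.norm_ofNat] at hlt1
      linarith
    rw [e1]
    calc _ ≤ ‖π (x ^ k) - π (x ^ l)‖ * ‖π ((x ^ l)⁻¹)‖ := norm_mul_le _ _
      _ ≤ ‖π (x ^ k) - π (x ^ l)‖ * 1 := by gcongr; exact hπ _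
      _ < 1 / 2 := by linarith
  -- minimal element
  have hfin : {g : M | g ≠ 1 ∧ ‖π g - 1‖ < 1 / 2}.Finite := Set.toFinite _
  obtain ⟨g0, ⟨hg1, hg2⟩, hmin⟩ :=
    Set.exists_min_image {g : M | g ≠ 1 ∧ ‖π g - 1‖ < 1 / 2} (fun g => ‖π g - 1‖) hfin
      ⟨u, hu1, hu2⟩
  have hcomm : ∀ h : M, ‖π h - 1‖ < 1 / 2 → g0 * h = h * g0 := by
    intro h hh
    by_contra hne
    have hne1 : g0 * h * g0⁻¹ * h⁻¹ ≠ 1 := by
      intro h1
      apply hne
      have : g0 * h * g0⁻¹ * h⁻¹ * (h * g0) = 1 * (h * g0) := by rw [h1]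
      simpa [mul_assoc] using this
    have hpos : 0 < ‖π g0 - 1‖ := by
      rw [norm_pos_iff, sub_ne_zero]
      intro h1
      exact hg1 (hinj (by rw [h1, map_one]))
    have hle := norm_commutator_sub_one_le π hπ g0 h
    have hlt2 : 2 * ‖π g0 - 1‖ * ‖π h - 1‖ < ‖π g0 - 1‖ := by nlinarith
    have := hmin (g0 * h * g0⁻¹ * h⁻¹) ⟨hne1, by linarith⟩
    linarith
  let T : Set M := {g : M | ‖π g - 1‖ < 1 / 2}
  have hTconj : ∀ k h : M, h ∈ T → k * h * k⁻¹ ∈ T := by
    intro k h hh
    exact lt_of_le_of_lt (norm_conj_sub_one_le π hπ k h) hh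
  let Z : Subgroup M := Subgroup.centralizer T
  have hZn : Z.Normal := by
    refine ⟨fun n hn g => ?_⟩
    rw [Subgroup.mem_centralizer_iff] at hn ⊢
    intro h hh
    have h1 := hn (g⁻¹ * h * g) (by simpa using hTconj g⁻¹ h hh)
    calc h * (g * n * g⁻¹) = g * ((g⁻¹ * h * g) * n) * g⁻¹ := by group
      _ = g * (n * (g⁻¹ * h * g)) * g⁻¹ := by rw [h1]
      _ = g * n * g⁻¹ * h := by group
  have hg0Z : g0 ∈ Z := by
    rw [Subgroup.mem_centralizer_iff]
    intro h hh
    exact (hcomm h hh).symm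
  have hZtop : Z = ⊤ := by
    rcases hZn.eq_bot_or_eq_top with h | h
    · exfalso
      rw [h, Subgroup.mem_bot] at hg0Z
      exact hg1 hg0Z
    · exact h
  have hg0c : g0 ∈ Subgroup.center M := by
    rw [Subgroup.mem_center_iff]
    intro g
    have : g ∈ Z := by rw [hZtop]; trivial
    rw [Subgroup.mem_centralizer_iff] at this
    exact (this g0 hg2).symm
  have hctop : Subgroup.center M = ⊤ := by
    rcases (inferInstance : (Subgroup.center M).Normal).eq_bot_or_eq_top with h | h
    · exfalso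
      rw [h, Subgroup.mem_bot] at hg0c
      exact hg1 hg0c
    · exact h
  apply hna
  intro a b
  have : b ∈ Subgroup.center M := by rw [hctop]; trivial
  rw [Subgroup.mem_center_iff] at this
  exact this a

end part_J

section part_W

open Module

theorem jordan_aux {M : Type*} [Group M] [Finite M] [IsSimpleGroup M]
    (hna : ¬ ∀ a b : M, a * b = b * a) {d : ℕ}
    (ρ : M →* Matrix (Fin d) (Fin d) ℂ) (hρ : Function.Injective ρ)
    {W : Type*} [NormedAddCommGroup W] [NormedSpace ℂ W] [FiniteDimensional ℂ W]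
    (e : (Fin d → ℂ) ≃ₗ[ℂ] W) (he : ∀ g v, ‖e (Matrix.mulVec (ρ g) v)‖ ≤ ‖e v‖) (x : M) :
    orderOf x ≤ 5 ^ (2 * (d * d)) := by
  let A : Matrix (Fin d) (Fin d) ℂ ≃ₐ[ℂ] (W →L[ℂ] W) :=
    (Matrix.toLinAlgEquiv' (R := ℂ) (n := Fin d)).trans
      ((LinearEquiv.conjAlgEquiv ℂ e).trans (Module.End.toContinuousLinearMap W))
  let π : M →* (W →L[ℂ] W) := (A.toAlgHom : Matrix (Fin d) (Fin d) ℂ →* (W →L[ℂ] W)).comp ρ
  have hπ_apply : ∀ (g : M) (v : Fin d → ℂ), π g (e v) = e (Matrix.mulVec (ρ g) v) := by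
    intro g v
    change e (Matrix.toLin' (ρ g) (e.symm (e v))) = _
    rw [e.symm_apply_apply, Matrix.toLin'_apply]
  have hinj : Function.Injective π := by
    intro a b hab
    apply hρ
    exact A.injective hab
  have hnorm : ∀ g, ‖π g‖ ≤ 1 := by
    intro g
    apply ContinuousLinearMap.opNorm_le_bound _ zero_le_one
    intro w
    obtain ⟨v, rfl⟩ := e.surjective w
    rw [hπ_apply, one_mul]
    exact he g v
  have hfin : finrank ℝ (W →L[ℂ] W) = 2 * (d * d) := by
    rw [finrank_real_of_complex]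
    congr 1
    have := A.toLinearEquiv.finrank_eq
    rw [← this, Module.finrank_matrix]
    simp
  rw [← hfin]
  have : FiniteDimensional ℝ (W →L[ℂ] W) := FiniteDimensional.complexToReal _
  exact jordan_simple π hinj hnorm hna x

theorem jordan_matrix {M : Type*} [Group M] [Finite M] [IsSimpleGroup M]
    (hna : ¬ ∀ a b : M, a * b = b * a) {d : ℕ}
    (ρ : M →* Matrix (Fin d) (Fin d) ℂ) (hρ : ∃ g, ρ g ≠ 1) (x : M) :
    orderOf x ≤ 5 ^ (2 * (d * d)) := by
  classical
  have := Fintype.ofFinite M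
  let Φ : (Fin d → ℂ) →ₗ[ℂ] (M → Fin d → ℂ) :=
    LinearMap.pi (fun g => Matrix.toLin' (ρ g))
  have hΦ : ∀ v g, Φ v g = Matrix.mulVec (ρ g) v := fun v g => rfl
  have hΦinj : Function.Injective Φ := by
    intro v w h
    have := congrFun h 1
    simpa [hΦ] using this
  let e : (Fin d → ℂ) ≃ₗ[ℂ] (LinearMap.range Φ) := LinearEquiv.ofInjective Φ hΦinj
  have hinj : Function.Injective ρ := by
    rw [← MonoidHom.ker_eq_bot_iff]
    rcases (inferInstance : (MonoidHom.ker ρ).Normal).eq_bot_or_eq_top with h | h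
    · exact h
    · exfalso
      obtain ⟨g, hg⟩ := hρ
      apply hg
      have : g ∈ MonoidHom.ker ρ := by rw [h]; trivial
      exact this
  refine jordan_aux hna ρ hinj e ?_ x
  intro g v
  change ‖Φ (Matrix.mulVec (ρ g) v)‖ ≤ ‖Φ v‖
  rw [pi_norm_le_iff_of_nonneg (norm_nonneg _)]
  intro k
  have : Φ (Matrix.mulVec (ρ g) v) k = Φ v (k * g) := by
    rw [hΦ, hΦ, Matrix.mulVec_mulVec, map_mul]
  rw [this]
  exact norm_le_pi_norm (Φ v) (k * g)

end part_W

section part_R1

open Module

/-- Eigenbasis of a matrix of finite order. -/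
theorem exists_eigenbasis {d m : ℕ} (hm : 0 < m) (A : Matrix (Fin d) (Fin d) ℂ) (hA : A ^ m = 1) :
    ∃ (ι : Type) (_ : Fintype ι) (b : Basis ι ℂ (Fin d → ℂ)) (μ : ι → ℂ),
      ∀ j, Matrix.mulVec A (b j) = μ j • b j := by
  let f : Module.End ℂ (Fin d → ℂ) := Matrix.toLin' A
  have hf : f ^ m = 1 := by
    have h1 : Matrix.toLinAlgEquiv' A ^ m = 1 := by rw [← map_pow, hA, map_one]
    exact h1
  have hss : f.IsSemisimple := by
    apply Module.End.isSemisimple_of_squarefree_aeval_eq_zero (p := Polynomial.X ^ m - 1)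
    · apply Polynomial.Separable.squarefree
      rw [Polynomial.X_pow_sub_one_separable_iff]
      exact_mod_cast hm.ne'
    · simp [hf]
  have htop : ⨆ μ : ℂ, f.eigenspace μ = ⊤ := by
    have h1 := Module.End.iSup_maxGenEigenspace_eq_top f
    rw [← h1]
    congr 1
    ext1 μ
    exact (hss.isFinitelySemisimple.maxGenEigenspace_eq_eigenspace μ).symm
  let S : Set (Fin d → ℂ) := {v | ∃ μ : ℂ, Matrix.mulVec A v = μ • v}
  have hS : ⊤ ≤ Submodule.span ℂ S := by
    rw [← htop]
    apply iSup_le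
    intro μ v hv
    apply Submodule.subset_span
    refine ⟨μ, ?_⟩
    rw [Module.End.mem_eigenspace_iff] at hv
    exact hv
  let b0 := Basis.ofSpan hS
  have hb0 : ∀ j, b0 j ∈ S := fun j => Basis.ofSpan_subset hS ⟨j, rfl⟩
  haveI : Finite _ := Module.Finite.finite_basis b0
  letI := Fintype.ofFinite (((linearIndepOn_empty ℂ id).extend (Set.empty_subset S) : Set (Fin d → ℂ)))
  choose μ hμ using hb0
  let eq := (Fintype.equivFin (((linearIndepOn_empty ℂ id).extend (Set.empty_subset S) : Set (Fin d → ℂ))))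
  refine ⟨Fin _, inferInstance, b0.reindex eq, μ ∘ eq.symm, ?_⟩
  intro j
  simp only [Basis.reindex_apply, Function.comp]
  exact hμ _

end part_R1

section part_R2

open Module MonoidAlgebra

theorem exists_wedderburn (M : Type*) [Group M] [Finite M] :
    ∃ (n : ℕ) (d : Fin n → ℕ), (∀ i, NeZero (d i)) ∧
      Nonempty (MonoidAlgebra ℂ M ≃ₐ[ℂ] Π i, Matrix (Fin (d i)) (Fin (d i)) ℂ) := by
  have : NeZero (Nat.card M : ℂ) := ⟨by exact_mod_cast Nat.card_pos.ne'⟩
  have : IsSemisimpleRing (MonoidAlgebra ℂ M) := inferInstance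
  have : FiniteDimensional ℂ (MonoidAlgebra ℂ M) := inferInstance
  exact IsSemisimpleRing.exists_algEquiv_pi_matrix_of_isAlgClosed ℂ (MonoidAlgebra ℂ M)

section
variable {M : Type*} [Group M] [Finite M]

/-- coefficients of an element of the group algebra, as a linear equivalence -/
noncomputable def cf (M : Type*) [Group M] [Finite M] : MonoidAlgebra ℂ M ≃ₗ[ℂ] (M → ℂ) :=
  (MonoidAlgebra.coeffLinearEquiv ℂ).trans (Finsupp.linearEquivFunOnFinite ℂ ℂ M)

lemma cf_apply (a : MonoidAlgebra ℂ M) (g : M) : cf M a g = a.coeff g := rfl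

lemma commute_of_iff (x : M) (a : MonoidAlgebra ℂ M) :
    Commute (MonoidAlgebra.of ℂ M x) a ↔ ∀ g, cf M a (x * g * x⁻¹) = cf M a g := by
  have h1 : ∀ m, (MonoidAlgebra.of ℂ M x * a).coeff m = a.coeff (x⁻¹ * m) := by
    intro m
    rw [MonoidAlgebra.of_apply, MonoidAlgebra.coeff_single_mul_eq_mul_coeff (x⁻¹ * m), one_mul]
    intro m' _
    constructor
    · intro h; rw [← h]; group
    · intro h; rw [h]; group
  have h2 : ∀ m, (a * MonoidAlgebra.of ℂ M x).coeff m = a.coeff (m * x⁻¹) := by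
    intro m
    rw [MonoidAlgebra.of_apply, MonoidAlgebra.coeff_mul_single_eq_coeff_mul (m * x⁻¹), mul_one]
    intro m' _
    constructor
    · intro h; rw [← h]; group
    · intro h; rw [h]; group
  constructor
  · intro h g
    have := congrArg (fun b : MonoidAlgebra ℂ M => b.coeff (x * g)) h.eq
    simp only [h1, h2] at this
    rw [cf_apply, cf_apply, ← this]
    congr 1; group
  · intro h
    ext m
    rw [h1, h2]
    have := h (x⁻¹ * m)
    rw [cf_apply, cf_apply] at this
    rw [← this]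
    congr 1; group

variable {n : ℕ} {d : Fin n → ℕ}

theorem card_conjClasses_le [∀ i, NeZero (d i)]
    (e : MonoidAlgebra ℂ M ≃ₐ[ℂ] Π i, Matrix (Fin (d i)) (Fin (d i)) ℂ) :
    Nat.card (ConjClasses M) ≤ n := by
  classical
  have := Fintype.ofFinite (ConjClasses M)
  let L : (ConjClasses M → ℂ) →ₗ[ℂ] (Fin n → ℂ) :=
    { toFun := fun f i => e ((cf M).symm (fun g => f (ConjClasses.mk g))) i 0 0
      map_add' := by
        intro f f'
        ext i
        have : (fun g : M => (f + f') (ConjClasses.mk g)) =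
          (fun g => f (ConjClasses.mk g)) + (fun g => f' (ConjClasses.mk g)) := rfl
        rw [this, map_add, map_add]
        rfl
      map_smul' := by
        intro c f
        ext i
        have : (fun g : M => (c • f) (ConjClasses.mk g)) = c • (fun g => f (ConjClasses.mk g)) := rfl
        rw [this, map_smul, map_smul]
        rfl }
  have hL : Function.Injective L := by
    rw [← LinearMap.ker_eq_bot, LinearMap.ker_eq_bot']
    intro f hf
    set a : MonoidAlgebra ℂ M := (cf M).symm (fun g => f (ConjClasses.mk g)) with ha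
    have hcfa : cf M a = fun g => f (ConjClasses.mk g) := by rw [ha, LinearEquiv.apply_symm_apply]
    have hcomm1 : ∀ x : M, Commute (MonoidAlgebra.of ℂ M x) a := by
      intro x
      rw [commute_of_iff]
      intro g
      rw [hcfa]
      simp only
      congr 1
      rw [ConjClasses.mk_eq_mk_iff_isConj, isConj_comm, isConj_iff]
      exact ⟨x, rfl⟩
    have hcomm : ∀ b : MonoidAlgebra ℂ M, Commute b a := by
      intro b
      induction b using MonoidAlgebra.induction_on with
      | of m => exact hcomm1 m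
      | add x y hx hy => exact hx.add_left hy
      | smul r x hx => exact hx.smul_left r
    have hzero : e a = 0 := by
      ext1 i
      have hsc : e a i ∈ Set.range (Matrix.scalar (Fin (d i))) := by
        apply Matrix.mem_range_scalar_of_commute_single
        intro k l hkl
        obtain ⟨b, hb⟩ := e.surjective (Pi.single i (Matrix.single k l 1))
        have h1 := (hcomm b).map e
        have h2 := congrFun h1.eq i
        simp only [Pi.mul_apply, hb, Pi.single_eq_same] at h2
        exact h2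
      obtain ⟨c, hc⟩ := hsc
      have h0 : e a i 0 0 = 0 := congrFun hf i
      rw [← hc] at h0
      simp at h0
      rw [← hc, h0]
      simp
    have ha0 : a = 0 := by
      have := e.injective (hzero.trans (map_zero e).symm)
      exact this
    ext c
    obtain ⟨g, rfl⟩ := ConjClasses.exists_rep c
    have := congrFun hcfa g
    rw [ha0, map_zero] at this
    exact this.symm
  have := LinearMap.finrank_le_finrank_of_injective hL
  rw [Module.finrank_fintype_fun_eq_card, Module.finrank_fintype_fun_eq_card, Fintype.card_fin] at this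
  rwa [Nat.card_eq_fintype_card]

/-- orbits of the cyclic group generated by `x` acting by conjugation -/
abbrev Orb (x : M) := MulAction.orbitRel.Quotient (Subgroup.zpowers (ConjAct.toConjAct x)) M

theorem sum_dim_le (x : M) {m : ℕ} (hm : 0 < m) (hx : x ^ m = 1)
    (e : MonoidAlgebra ℂ M ≃ₐ[ℂ] Π i, Matrix (Fin (d i)) (Fin (d i)) ℂ) :
    ∑ i, d i ≤ Nat.card (Orb x) := by
  classical
  have : Finite (Orb x) := Quotient.finite _
  have := Fintype.ofFinite (Orb x)
  have hA : ∀ i, (e (MonoidAlgebra.of ℂ M x) i) ^ m = 1 := by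
    intro i
    have : (e (MonoidAlgebra.of ℂ M x)) ^ m = 1 := by
      rw [← map_pow, ← map_pow, hx, map_one, map_one]
    exact congrFun this i
  have := fun i => exists_eigenbasis hm _ (hA i)
  choose ι hι b μ hμ using this
  have hcard : ∀ i, Fintype.card (ι i) = d i := by
    intro i
    have := Module.finrank_eq_card_basis (b i)
    simpa using this.symm
  -- the linear map
  let T0 : ∀ i, (ι i → ℂ) →ₗ[ℂ] Matrix (Fin (d i)) (Fin (d i)) ℂ := fun i =>
    { toFun := fun c => LinearMap.toMatrix' ((b i).constr ℂ (fun j => c j • b i j))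
      map_add' := by
        intro c c'
        rw [← map_add]
        congr 1
        apply (b i).ext
        intro j
        rw [LinearMap.add_apply, Basis.constr_basis, Basis.constr_basis, Basis.constr_basis,
          Pi.add_apply, add_smul]
      map_smul' := by
        intro r c
        rw [RingHom.id_apply, ← map_smul]
        congr 1
        apply (b i).ext
        intro j
        simp [mul_smul] }
  have hT0 : ∀ i c j, Matrix.mulVec (T0 i c) (b i j) = c j • b i j := by
    intro i c j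
    change Matrix.mulVec (LinearMap.toMatrix' ((b i).constr ℂ (fun j => c j • b i j))) (b i j) = _
    rw [LinearMap.toMatrix'_mulVec]
    simp
  have hcommT : ∀ i c, Commute (e (MonoidAlgebra.of ℂ M x) i) (T0 i c) := by
    intro i c
    have : Matrix.toLin' (e (MonoidAlgebra.of ℂ M x) i * T0 i c) =
        Matrix.toLin' (T0 i c * e (MonoidAlgebra.of ℂ M x) i) := by
      apply (b i).ext
      intro j
      rw [Matrix.toLin'_apply, Matrix.toLin'_apply, ← Matrix.mulVec_mulVec,
        ← Matrix.mulVec_mulVec, hT0, hμ, Matrix.mulVec_smul, Matrix.mulVec_smul, hT0, hμ,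
        smul_smul, smul_smul, mul_comm]
    exact Matrix.toLin'.injective this
  let T : ((i : Fin n) × ι i → ℂ) →ₗ[ℂ] (Π i, Matrix (Fin (d i)) (Fin (d i)) ℂ) :=
    LinearMap.pi (fun i => (T0 i).comp (LinearMap.funLeft ℂ ℂ (fun j => (⟨i, j⟩ : (i : Fin n) × ι i))))
  have hT : ∀ c i, T c i = T0 i (fun j => c ⟨i, j⟩) := fun c i => rfl
  have hTinj : ∀ c, T c = 0 → c = 0 := by
    intro c hc
    ext ⟨i, j⟩
    have h1 : T0 i (fun j => c ⟨i, j⟩) = 0 := by rw [← hT, hc]; rfl
    have h2 := hT0 i (fun j => c ⟨i, j⟩) j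
    rw [h1, Matrix.zero_mulVec] at h2
    have h3 : b i j ≠ 0 := (b i).ne_zero j
    have := (smul_eq_zero.mp h2.symm).resolve_right h3
    exact this
  let L : ((i : Fin n) × ι i → ℂ) →ₗ[ℂ] (Orb x → ℂ) :=
    (LinearMap.funLeft ℂ ℂ (fun ω : Orb x => ω.out)).comp
      ((cf M).toLinearMap.comp (e.symm.toLinearMap.comp T))
  have hLdef : ∀ c ω, L c ω = cf M (e.symm (T c)) ω.out := fun c ω => rfl
  have hL : Function.Injective L := by
    rw [← LinearMap.ker_eq_bot, LinearMap.ker_eq_bot']
    intro c hc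
    apply hTinj
    have hcomm : Commute (MonoidAlgebra.of ℂ M x) (e.symm (T c)) := by
      have h1 : Commute (e (MonoidAlgebra.of ℂ M x)) (T c) := by
        ext1 i
        exact hcommT i _
      have := h1.map e.symm
      rwa [e.symm_apply_apply] at this
    have hinv : ∀ g, cf M (e.symm (T c)) (x * g * x⁻¹) = cf M (e.symm (T c)) g :=
      (commute_of_iff x _).mp hcomm
    have hinvz0 : ∀ (z : ℤ) (g : M),
        cf M (e.symm (T c)) ((ConjAct.toConjAct x ^ z) • g) = cf M (e.symm (T c)) g := by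
      intro z
      induction z using Int.induction_on with
      | zero => intro g; simp
      | succ i ih =>
        intro g
        have h1 := ih (x * g * x⁻¹)
        rw [hinv] at h1
        rw [← h1, zpow_add, zpow_one, mul_smul]
        rfl
      | pred i ih =>
        intro g
        have h1 := ih (x⁻¹ * g * x)
        have h2 := hinv (x⁻¹ * g * x)
        have h3 : x * (x⁻¹ * g * x) * x⁻¹ = g := by group
        rw [h3] at h2
        rw [h2, ← h1, zpow_sub, zpow_one, mul_smul]
        simp [ConjAct.smul_def]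
    have hinvz : ∀ (k : Subgroup.zpowers (ConjAct.toConjAct x)) (g : M),
        cf M (e.symm (T c)) (k • g) = cf M (e.symm (T c)) g := by
      rintro ⟨k, hk⟩ g
      rw [Subgroup.mem_zpowers_iff] at hk
      obtain ⟨z, rfl⟩ := hk
      exact hinvz0 z g
    have hzero : cf M (e.symm (T c)) = 0 := by
      ext g
      have h1 : L c (Quotient.mk'' g) = 0 := by rw [hc]; rfl
      rw [hLdef] at h1
      have h2 : ∃ k : Subgroup.zpowers (ConjAct.toConjAct x),
          k • g = (Quotient.mk'' g : Orb x).out := by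
        have := Quotient.exact' (Quotient.out_eq' (Quotient.mk'' g : Orb x))
        exact this
      obtain ⟨k, hk⟩ := h2
      rw [← hk, hinvz] at h1
      exact h1
    have := (cf M).injective (hzero.trans (map_zero (cf M)).symm)
    have := e.symm.injective (this.trans (map_zero e.symm).symm)
    exact this
  have h := LinearMap.finrank_le_finrank_of_injective hL
  rw [Module.finrank_fintype_fun_eq_card, Module.finrank_fintype_fun_eq_card, Fintype.card_sigma] at h
  rw [Nat.card_eq_fintype_card]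
  simpa [hcard] using h

end

end part_R2

section part_R3

open Module MonoidAlgebra

section
variable {M : Type*} [Group M] [Finite M]

/-- nontrivial elements of a cyclic group of prime order generate it -/
lemma mem_zpowers_of_prime {G : Type*} [Group G] {p : ℕ} (hp : p.Prime) {x y : G}
    (hx : orderOf x = p) (hy : y ∈ Subgroup.zpowers x) (hy1 : y ≠ 1) :
    x ∈ Subgroup.zpowers y := by
  have : Fact p.Prime := ⟨hp⟩
  have hc : Nat.card (Subgroup.zpowers x) = p := by rw [Nat.card_zpowers, hx]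
  have hle : Subgroup.zpowers y ≤ Subgroup.zpowers x := by
    rw [Subgroup.zpowers_le]; exact hy
  have h2 : Nat.card (Subgroup.zpowers y) ∣ p := by
    rw [← hc]; exact Subgroup.card_dvd_of_le hle
  have h3 : Nat.card (Subgroup.zpowers y) ≠ 1 := by
    rw [Nat.card_zpowers, Ne, orderOf_eq_one_iff]; exact hy1
  have h4 : Nat.card (Subgroup.zpowers y) = p := (hp.eq_one_or_self_of_dvd _ h2).resolve_left h3
  have : Finite (Subgroup.zpowers x) := Nat.finite_of_card_ne_zero (by rw [hc]; exact hp.ne_zero)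
  have h5 : Subgroup.zpowers y = Subgroup.zpowers x :=
    Subgroup.eq_of_le_of_card_ge hle (by rw [h4, hc])
  rw [h5]
  exact Subgroup.mem_zpowers x

theorem orb_card_mul_le {p : ℕ} (hp : p.Prime) (x : M) (hx : orderOf x = p) :
    Nat.card (Orb x) * p ≤ Nat.card M + p * Nat.card (Subgroup.centralizer {x}) := by
  classical
  have := Fintype.ofFinite M
  let P := Subgroup.zpowers (ConjAct.toConjAct x)
  have : Finite (ConjAct M) := inferInstanceAs (Finite M)
  have := Fintype.ofFinite P
  have hPcard : Fintype.card P = p := by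
    rw [← Nat.card_eq_fintype_card, Nat.card_zpowers]
    rw [← hx]
    exact orderOf_injective (ConjAct.toConjAct (G := M)).toMonoidHom (ConjAct.toConjAct (G := M)).injective x
  have : Finite (Quotient (MulAction.orbitRel P M)) := Quotient.finite _
  have := Fintype.ofFinite (Quotient (MulAction.orbitRel P M))
  have := fun g : P => Fintype.ofFinite (MulAction.fixedBy M g)
  have hB := MulAction.sum_card_fixedBy_eq_card_orbits_mul_card_group P M
  have hle : ∀ g : P, g ≠ 1 → Fintype.card (MulAction.fixedBy M g) ≤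
      Nat.card (Subgroup.centralizer ({x} : Set M)) := by
    intro g hg
    rw [← Nat.card_eq_fintype_card]
    apply Nat.card_le_card_of_injective (fun m : MulAction.fixedBy M g =>
      (⟨m.1, by
        obtain ⟨m, hm⟩ := m
        rw [MulAction.mem_fixedBy] at hm
        rw [Subgroup.mem_centralizer_singleton_iff]
        obtain ⟨g, hgP⟩ := g
        rw [Subgroup.mem_zpowers_iff] at hgP
        obtain ⟨z, rfl⟩ := hgP
        -- x ^ z commutes with m
        have hcm : x ^ z * m = m * x ^ z := by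
          have h1 : ConjAct.toConjAct x ^ z • m = m := hm
          rw [ConjAct.smul_def] at h1
          have h2 : ConjAct.ofConjAct (ConjAct.toConjAct x ^ z) = x ^ z := by simp
          rw [h2] at h1
          exact mul_inv_eq_iff_eq_mul.mp h1
        have hxz : x ^ z ≠ 1 := by
          intro h
          apply hg
          ext1
          simp only [OneMemClass.coe_one]
          rw [← map_zpow, h, map_one]
        have hmem := mem_zpowers_of_prime hp hx (Subgroup.zpow_mem_zpowers x z) hxz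
        rw [Subgroup.mem_zpowers_iff] at hmem
        obtain ⟨w, hw⟩ := hmem
        have hc : Commute (x ^ z) m := hcm
        have hc2 := (hc.zpow_left w)
        rw [hw] at hc2
        exact hc2.eq.symm⟩ : Subgroup.centralizer ({x} : Set M)))
    intro a b hab
    simpa [Subtype.ext_iff] using hab
  have hsum : ∑ g : P, Fintype.card (MulAction.fixedBy M g) ≤
      Nat.card M + p * Nat.card (Subgroup.centralizer ({x} : Set M)) := by
    rw [← Finset.add_sum_erase _ _ (Finset.mem_univ (1 : P))]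
    apply add_le_add
    · rw [← Nat.card_eq_fintype_card]
      exact Nat.card_le_card_of_injective _ Subtype.val_injective
    · calc ∑ g ∈ Finset.univ.erase (1 : P), Fintype.card (MulAction.fixedBy M g)
          ≤ ∑ g ∈ Finset.univ.erase (1 : P), Nat.card (Subgroup.centralizer ({x} : Set M)) := by
            apply Finset.sum_le_sum
            intro g hg
            exact hle g (Finset.ne_of_mem_erase hg)
        _ = (Finset.univ.erase (1 : P)).card * Nat.card (Subgroup.centralizer ({x} : Set M)) := by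
            rw [Finset.sum_const, smul_eq_mul]
        _ ≤ p * Nat.card (Subgroup.centralizer ({x} : Set M)) := by
            gcongr
            calc _ ≤ (Finset.univ : Finset P).card := Finset.card_le_card (Finset.erase_subset _ _)
              _ = p := by rw [Finset.card_univ, hPcard]
  rw [hB, hPcard] at hsum
  rwa [← Nat.card_eq_fintype_card] at hsum

variable {p : ℕ}

lemma sylow_card_eq (hp : p.Prime) (hdvd : p ∣ Nat.card M) (hsq : ¬ p ^ 2 ∣ Nat.card M)
    (Q : Sylow p M) : Nat.card Q = p := by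
  have : Fact p.Prime := ⟨hp⟩
  rw [Sylow.card_eq_multiplicity]
  have h1 : (Nat.card M).factorization p = 1 := by
    apply le_antisymm
    · by_contra h
      push Not at h
      exact hsq ((hp.pow_dvd_iff_le_factorization Nat.card_pos.ne').mpr h)
    · exact (hp.dvd_iff_one_le_factorization Nat.card_pos.ne').mp hdvd
  rw [h1, pow_one]

theorem pairs_card_le (hp : p.Prime) (hdvd : p ∣ Nat.card M) (hsq : ¬ p ^ 2 ∣ Nat.card M) :
    Nat.card (Sylow p M) * ((p - 1) * p) ≤ Nat.card (ConjClasses M) * Nat.card M := by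
  classical
  have : Fact p.Prime := ⟨hp⟩
  rw [← card_comm_eq_card_conjClasses_mul_card]
  have hcQ : ∀ Q : Sylow p M, Nat.card (Q : Subgroup M) = p := sylow_card_eq hp hdvd hsq
  have hgen : ∀ (Q : Sylow p M) (g : M), g ∈ Q → g ≠ 1 → (Q : Subgroup M) = Subgroup.zpowers g := by
    intro Q g hg hg1
    symm
    apply Subgroup.eq_of_le_of_card_ge
    · rw [Subgroup.zpowers_le]; exact hg
    · rw [hcQ Q, Nat.card_zpowers]
      have h1 : orderOf g ∣ p := by
        have := Subgroup.card_dvd_of_le (show Subgroup.zpowers g ≤ (Q : Subgroup M) by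
          rw [Subgroup.zpowers_le]; exact hg)
        rw [Nat.card_zpowers] at this
        rwa [← hcQ Q]
      have h2 : orderOf g ≠ 1 := by rw [Ne, orderOf_eq_one_iff]; exact hg1
      rw [(hp.eq_one_or_self_of_dvd _ h1).resolve_left h2]
  have hcomm : ∀ (Q : Sylow p M) (g h : M), g ∈ (Q : Subgroup M) → g ≠ 1 → h ∈ (Q : Subgroup M) →
      Commute g h := by
    intro Q g h hg hg1 hh
    rw [hgen Q g hg hg1, Subgroup.mem_zpowers_iff] at hh
    obtain ⟨z, rfl⟩ := hh
    exact (Commute.refl (g : M)).zpow_right z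
  let F : ((Q : Sylow p M) × ({g : (Q : Subgroup M) // g ≠ 1} × (Q : Subgroup M))) →
      {q : M × M // Commute q.1 q.2} :=
    fun t => ⟨((t.2.1.1 : M), (t.2.2 : M)), by
      obtain ⟨Q, ⟨g, hg⟩, h⟩ := t
      exact hcomm Q g h g.2 (by simpa using hg) h.2⟩
  have hF : Function.Injective F := by
    rintro ⟨Q, ⟨⟨g, hgQ⟩, hg⟩, ⟨h, hhQ⟩⟩ ⟨Q', ⟨⟨g', hgQ'⟩, hg'⟩, ⟨h', hhQ'⟩⟩ heq
    have h1 : g = g' ∧ h = h' := by
      simpa [F] using heq
    obtain ⟨rfl, rfl⟩ := h1
    have hg1 : g ≠ 1 := by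
      intro h0; apply hg; ext1; exact h0
    have hQQ : Q = Q' := by
      apply Sylow.ext
      rw [hgen Q g hgQ hg1, hgen Q' g hgQ' hg1]
    subst hQQ
    rfl
  have hcard := Nat.card_le_card_of_injective F hF
  refine le_trans (le_of_eq ?_) hcard
  have := Fintype.ofFinite (Sylow p M)
  rw [Nat.card_sigma]
  have h3 : ∀ Q : Sylow p M,
      Nat.card ({g : (Q : Subgroup M) // g ≠ 1} × (Q : Subgroup M)) = (p - 1) * p := by
    intro Q
    rw [Nat.card_prod, hcQ Q]
    congr 1
    have h4 : Nat.card {g : (Q : Subgroup M) // g ≠ 1} = Nat.card (Q : Subgroup M) - 1 := by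
      have := Fintype.ofFinite (Q : Subgroup M)
      rw [Nat.card_eq_fintype_card, Nat.card_eq_fintype_card, Fintype.card_subtype_compl,
        Fintype.card_subtype_eq]
    rw [h4, hcQ Q]
  simp only [h3, Finset.sum_const, smul_eq_mul, Finset.card_univ, Nat.card_eq_fintype_card]

theorem centralizer_mul_le (hp : p.Prime) (hdvd : p ∣ Nat.card M) (hsq : ¬ p ^ 2 ∣ Nat.card M)
    (x : M) (hx : orderOf x = p) :
    Nat.card (Subgroup.centralizer ({x} : Set M)) * Nat.card (Sylow p M) ≤ Nat.card M := by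
  have : Fact p.Prime := ⟨hp⟩
  have hP : IsPGroup p (Subgroup.zpowers x) := by
    apply IsPGroup.of_card (n := 1)
    rw [Nat.card_zpowers, hx, pow_one]
  obtain ⟨Q, hQ⟩ := hP.exists_le_sylow
  have hQeq : Subgroup.zpowers x = (Q : Subgroup M) := by
    apply Subgroup.eq_of_le_of_card_ge hQ
    rw [sylow_card_eq hp hdvd hsq Q, Nat.card_zpowers, hx]
  rw [Q.card_eq_index_normalizer]
  have hle : Subgroup.centralizer ({x} : Set M) ≤ Subgroup.normalizer (Q : Set M) := by
    have h1 : Subgroup.centralizer ({x} : Set M) ≤ Subgroup.centralizer (Q : Set M) := by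
      intro g hg
      rw [Subgroup.mem_centralizer_singleton_iff] at hg
      rw [Subgroup.mem_centralizer_iff]
      intro h hh
      have hh' : h ∈ (Q : Subgroup M) := hh
      rw [← hQeq, Subgroup.mem_zpowers_iff] at hh'
      obtain ⟨z, rfl⟩ := hh'
      have hc : Commute g x := hg
      exact (hc.zpow_right z).eq.symm
    exact h1.trans (Subgroup.centralizer_le_normalizer _)
  calc _ ≤ Nat.card (Subgroup.normalizer (Q : Set M)) * (Subgroup.normalizer (Q : Set M)).index := by
        gcongr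
        exact Nat.card_le_card_of_injective _ (Subgroup.inclusion_injective hle)
    _ = Nat.card M := Subgroup.card_mul_index _

end

end part_R3

section part_R4

open Module MonoidAlgebra

section
variable {M : Type*} [Group M] [Finite M] {n : ℕ} {d : Fin n → ℕ}

/-- the representation on the `i`-th block -/
noncomputable def blk (e : MonoidAlgebra ℂ M ≃ₐ[ℂ] Π i, Matrix (Fin (d i)) (Fin (d i)) ℂ)
    (i : Fin n) : M →* Matrix (Fin (d i)) (Fin (d i)) ℂ :=
  (Pi.evalMonoidHom (fun i => Matrix (Fin (d i)) (Fin (d i)) ℂ) i).comp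
    (((e : MonoidAlgebra ℂ M →* Π i, Matrix (Fin (d i)) (Fin (d i)) ℂ)).comp
      (MonoidAlgebra.of ℂ M))

lemma blk_apply (e : MonoidAlgebra ℂ M ≃ₐ[ℂ] Π i, Matrix (Fin (d i)) (Fin (d i)) ℂ)
    (i : Fin n) (g : M) : blk e i g = e (MonoidAlgebra.of ℂ M g) i := rfl

lemma trivial_blk_unique [∀ i, NeZero (d i)]
    (e : MonoidAlgebra ℂ M ≃ₐ[ℂ] Π i, Matrix (Fin (d i)) (Fin (d i)) ℂ)
    (i j : Fin n) (hi : ∀ g, blk e i g = 1) (hj : ∀ g, blk e j g = 1) : i = j := by
  classical
  by_contra hij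
  -- on both blocks e acts as the augmentation
  have key : ∀ k : Fin n, (∀ g, blk e k g = 1) → ∀ b : MonoidAlgebra ℂ M,
      e b k 0 0 = ∑ᶠ g, b.coeff g := by
    intro k hk b
    have := Fintype.ofFinite M
    rw [finsum_eq_sum_of_fintype]
    induction b using MonoidAlgebra.induction_on with
    | of m =>
      have := hk m
      rw [blk_apply] at this
      rw [this, MonoidAlgebra.of_apply]
      simp [Finsupp.single_apply]
    | add x y hx hy =>
      rw [map_add, Pi.add_apply, Matrix.add_apply, hx, hy, ← Finset.sum_add_distrib]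
      rfl
    | smul r x hx =>
      rw [map_smul, Pi.smul_apply, Matrix.smul_apply, hx, Finset.smul_sum]
      rfl
  obtain ⟨b, hb⟩ := e.surjective (Pi.single i 1)
  have h1 := key i hi b
  have h2 := key j hj b
  rw [hb, Pi.single_eq_same] at h1
  rw [hb, Pi.single_eq_of_ne (Ne.symm hij)] at h2
  rw [← h2] at h1
  simp at h1

theorem simple_case {C p : ℕ} (hC : 0 < C) (hp : p.Prime) (hbig : 5 ^ (32 * C ^ 4) < p)
    {M : Type*} [Group M] [Finite M] [IsSimpleGroup M]
    (hcard : Nat.card M < C * p ^ 2) (hdvd : p ∣ Nat.card M) (hsq : ¬ p ^ 2 ∣ Nat.card M) :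
    ∀ a b : M, a * b = b * a := by
  classical
  by_contra hna
  have : Fact p.Prime := ⟨hp⟩
  obtain ⟨x, hx⟩ := exists_prime_orderOf_dvd_card' (G := M) p hdvd
  -- number of Sylow subgroups
  have hν : p + 1 ≤ Nat.card (Sylow p M) := by
    have h1 : Nat.card (Sylow p M) ≡ 1 [MOD p] := card_sylow_modEq_one p M
    have h2 : Nat.card (Sylow p M) ≠ 1 := by
      intro h
      have hsub : Subsingleton (Sylow p M) := (Nat.card_eq_one_iff_unique.mp h).1
      obtain ⟨Q⟩ : Nonempty (Sylow p M) := inferInstance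
      have hQn : (Q : Subgroup M).Normal := Q.normal_of_subsingleton
      rcases hQn.eq_bot_or_eq_top with h | h
      · have := sylow_card_eq hp hdvd hsq Q
        rw [h, Subgroup.card_bot] at this
        exact hp.one_lt.ne this
      · have hc := sylow_card_eq hp hdvd hsq Q
        rw [h, Subgroup.card_top] at hc
        have := isCyclic_of_prime_card hc
        apply hna
        let _ := IsCyclic.commGroup (α := M)
        intro a b
        exact mul_comm a b
    have h3 : 0 < Nat.card (Sylow p M) := Nat.card_pos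
    by_contra hlt
    push Not at hlt
    have h4 : Nat.card (Sylow p M) % p = 1 % p := h1
    rw [Nat.mod_eq_of_lt hp.one_lt] at h4
    rcases Nat.lt_succ_iff_lt_or_eq.mp hlt with h5 | h5
    · rw [Nat.mod_eq_of_lt h5] at h4; exact h2 h4
    · rw [h5, Nat.mod_self] at h4; omega
  obtain ⟨n, d, hd, ⟨e⟩⟩ := exists_wedderburn M
  have hk := card_conjClasses_le e
  have ha := sum_dim_le x hp.pos (by rw [← hx]; exact pow_orderOf_eq_one x) e
  have haO := orb_card_mul_le hp x hx
  have hcen := centralizer_mul_le hp hdvd hsq x hx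
  have hpairs := pairs_card_le hp hdvd hsq
  -- dimensions
  have hdim : ∀ i, (∃ g, blk e i g ≠ 1) → 4 * C ^ 2 ≤ d i := by
    intro i hi
    by_contra hlt
    push Not at hlt
    have h1 := jordan_matrix hna (blk e i) hi x
    rw [hx] at h1
    have h2 : 5 ^ (2 * (d i * d i)) ≤ 5 ^ (32 * C ^ 4) := by
      apply Nat.pow_le_pow_right (by norm_num)
      have : d i * d i ≤ (4 * C ^ 2) * (4 * C ^ 2) := Nat.mul_le_mul hlt.le hlt.le
      calc 2 * (d i * d i) ≤ 2 * ((4 * C ^ 2) * (4 * C ^ 2)) := by omega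
        _ = 32 * C ^ 4 := by ring
    omega
  have hsumlow : n * (4 * C ^ 2) ≤ ∑ i, d i + 4 * C ^ 2 := by
    by_cases hT : ∃ i0, ∀ g, blk e i0 g = 1
    · obtain ⟨i0, hi0⟩ := hT
      rw [← Finset.add_sum_erase _ _ (Finset.mem_univ i0)]
      have h1 : (Finset.univ.erase i0).card * (4 * C ^ 2) ≤ ∑ i ∈ Finset.univ.erase i0, d i := by
        rw [← smul_eq_mul]
        apply Finset.card_nsmul_le_sum
        intro i hi
        apply hdim
        by_contra hcon
        push Not at hcon
        exact Finset.ne_of_mem_erase hi (trivial_blk_unique e i i0 hcon hi0)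
      have h2 : (Finset.univ.erase i0).card + 1 = n := by
        rw [Finset.card_erase_of_mem (Finset.mem_univ i0), Finset.card_univ, Fintype.card_fin]
        have := i0.pos
        omega
      calc n * (4 * C ^ 2) = (Finset.univ.erase i0).card * (4 * C ^ 2) + 4 * C ^ 2 := by
            conv_lhs => rw [← h2]
            ring
        _ ≤ _ := by omega
    · push Not at hT
      have h1 : (Finset.univ : Finset (Fin n)).card * (4 * C ^ 2) ≤ ∑ i, d i := by
        rw [← smul_eq_mul]
        apply Finset.card_nsmul_le_sum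
        intro i _
        exact hdim i (hT i)
      rw [Finset.card_univ, Fintype.card_fin] at h1
      omega
  -- arithmetic
  set m := Nat.card M with hm
  set k := Nat.card (ConjClasses M) with hkdef
  set ν := Nat.card (Sylow p M) with hνdef
  set c0 := Nat.card (Subgroup.centralizer ({x} : Set M)) with hc0
  set a := Nat.card (Orb x) with hadef
  have hmpos : 0 < m := Nat.card_pos
  have hp2 := hp.two_le
  have h1 : k * (4 * C ^ 2) ≤ a + 4 * C ^ 2 := by
    calc k * (4 * C ^ 2) ≤ n * (4 * C ^ 2) := by gcongr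
      _ ≤ _ := by omega
  have h2 : p * c0 ≤ m := by
    calc p * c0 ≤ c0 * ν := by nlinarith
      _ ≤ m := hcen
  have h3 : a * p ≤ 2 * m := by omega
  have h4 : (p + 1) * ((p - 1) * p) ≤ k * m := by
    calc (p + 1) * ((p - 1) * p) ≤ ν * ((p - 1) * p) := by gcongr
      _ ≤ _ := hpairs
  have hpC : 2 * C + 2 ≤ p := by
    have h5 : 32 * C ^ 4 < 5 ^ (32 * C ^ 4) := Nat.lt_pow_self (by norm_num)
    have h6 : C ≤ C ^ 4 := Nat.le_self_pow (by norm_num) C
    have h7 : 1 ≤ C ^ 4 := Nat.one_le_pow _ _ hC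
    omega
  -- move to integers
  obtain ⟨q, hq⟩ : ∃ q, p = q + 1 := ⟨p - 1, by omega⟩
  have h4' : (p + 1) * (q * p) ≤ k * m := by
    have : p - 1 = q := by omega
    rwa [this] at h4
  have hA : (k * (4 * C ^ 2)) * (p * m) ≤ (a + 4 * C ^ 2) * (p * m) := Nat.mul_le_mul_right _ h1
  have hB : (a + 4 * C ^ 2) * (p * m) ≤ 2 * m * m + 4 * C ^ 2 * (p * m) := by
    calc (a + 4 * C ^ 2) * (p * m) = (a * p) * m + 4 * C ^ 2 * (p * m) := by ring
      _ ≤ 2 * m * m + 4 * C ^ 2 * (p * m) := by gcongr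
  have hD : 4 * C ^ 2 * p * ((p + 1) * (q * p)) ≤ (k * (4 * C ^ 2)) * (p * m) := by
    calc 4 * C ^ 2 * p * ((p + 1) * (q * p)) ≤ 4 * C ^ 2 * p * (k * m) := by gcongr
      _ = _ := by ring
  have hE : 2 * m * m + 4 * C ^ 2 * (p * m) ≤
      2 * (C * p ^ 2) * (C * p ^ 2) + 4 * C ^ 2 * (p * (C * p ^ 2)) := by
    gcongr
  have hF : 4 * C ^ 2 * p * ((p + 1) * (q * p)) ≤
      2 * (C * p ^ 2) * (C * p ^ 2) + 4 * C ^ 2 * (p * (C * p ^ 2)) := by omega
  have hG : (2 * C ^ 2 * p ^ 2) * (2 * ((p + 1) * q)) ≤ (2 * C ^ 2 * p ^ 2) * (p ^ 2 + 2 * C * p) := by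
    calc (2 * C ^ 2 * p ^ 2) * (2 * ((p + 1) * q)) = 4 * C ^ 2 * p * ((p + 1) * (q * p)) := by ring
      _ ≤ _ := hF
      _ = _ := by ring
  have hpos : 0 < 2 * C ^ 2 * p ^ 2 := by positivity
  have hH := Nat.le_of_mul_le_mul_left hG hpos
  subst hq
  nlinarith

end

end part_R4

section part_A

lemma conj_not_mem_zpowers {G : Type*} [Group G] {p : ℕ} (hp : p.Prime) (h4 : p % 4 = 3)
    {x h : G} (hx : orderOf x = p) (hinv : (h * h) * x * (h * h)⁻¹ = x⁻¹) :
    h * x * h⁻¹ ∉ Subgroup.zpowers x := by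
  intro hmem
  rw [Subgroup.mem_zpowers_iff] at hmem
  obtain ⟨a, ha⟩ := hmem
  have h1 : x ^ (a * a) = x⁻¹ := by
    rw [← hinv]
    have h2 : (h * h) * x * (h * h)⁻¹ = h * (h * x * h⁻¹) * h⁻¹ := by group
    rw [h2, ← ha, zpow_mul]
    nth_rewrite 1 [ha]
    rw [conj_zpow]
  have h2 : x ^ (a * a + 1) = 1 := by
    rw [zpow_add, h1]; simp
  have h3 : (p : ℤ) ∣ a * a + 1 := by
    rw [← hx]; exact orderOf_dvd_iff_zpow_eq_one.mpr h2
  have : Fact p.Prime := ⟨hp⟩
  have h5 : ((a : ZMod p)) ^ 2 = -1 := by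
    have := (ZMod.intCast_zmod_eq_zero_iff_dvd (a * a + 1) p).mpr h3
    push_cast at this
    rw [pow_two]
    exact eq_neg_of_add_eq_zero_left this
  exact ZMod.mod_four_ne_three_of_sq_eq_neg_one h5 h4

lemma mem_of_normal_of_dvd {G : Type*} [Group G] [Finite G] {p : ℕ} (hp : p.Prime)
    (hsq : ¬ p ^ 2 ∣ Nat.card G) (K : Subgroup G) [K.Normal] (hK : p ∣ Nat.card K)
    {y : G} (hy : y ^ p = 1) : y ∈ K := by
  have h1 : ¬ p ∣ K.index := by
    intro h
    apply hsq
    rw [← K.card_mul_index, pow_two]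
    exact Nat.mul_dvd_mul hK h
  have h2 : ((y : G ⧸ K)) ^ p = 1 := by
    rw [← QuotientGroup.mk_pow, hy]; rfl
  have h3 : orderOf (y : G ⧸ K) ∣ p := orderOf_dvd_of_pow_eq_one h2
  have h4 : orderOf (y : G ⧸ K) ∣ K.index := by
    rw [Subgroup.index_eq_card]
    exact orderOf_dvd_natCard _
  rcases hp.eq_one_or_self_of_dvd _ h3 with h | h
  · rw [orderOf_eq_one_iff] at h
    exact (QuotientGroup.eq_one_iff y).mp h
  · rw [h] at h4
    exact absurd h4 h1

lemma not_dvd_card_sup {G : Type*} [Group G] [Finite G] {p : ℕ} (hp : p.Prime)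
    (K L : Subgroup G) [L.Normal] (hK : ¬ p ∣ Nat.card K) (hL : ¬ p ∣ Nat.card L) :
    ¬ p ∣ Nat.card (K ⊔ L : Subgroup G) := by
  intro h
  have h1 : Nat.card L * L.relIndex (K ⊔ L) = Nat.card (K ⊔ L : Subgroup G) := by
    rw [← Subgroup.relIndex_bot_left, ← Subgroup.relIndex_bot_left]
    exact Subgroup.relIndex_mul_relIndex _ _ _ bot_le le_sup_right
  rw [Subgroup.relIndex_sup_right] at h1
  rw [← h1] at h
  rcases hp.dvd_mul.mp h with h | h
  · exact hL h
  · exact hK (h.trans (Subgroup.relIndex_dvd_card L K))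

theorem no_inv {C p : ℕ} (hC : 0 < C) (hp : p.Prime) (h4 : p % 4 = 3)
    (hbig : 5 ^ (32 * C ^ 4) < p) (N : ℕ) :
    ∀ (H : Type u) [Group H] [Finite H], Nat.card H = N → Nat.card H < C * p ^ 2 →
      ¬ p ^ 2 ∣ Nat.card H → ∀ x h : H, orderOf x = p → (h * h) * x * (h * h)⁻¹ = x⁻¹ → False := by
  classical
  induction N using Nat.strong_induction_on with
  | _ N ih =>
  intro H _ _ hN hcard hsq x h hx hinv
  have hx1 : x ≠ 1 := by
    intro h1
    rw [h1, orderOf_one] at hx
    exact hp.one_lt.ne hx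
  by_cases hR : ∃ R : Subgroup H, R.Normal ∧ R ≠ ⊥ ∧ ¬ p ∣ Nat.card R
  · obtain ⟨R, hRn, hR1, hRp⟩ := hR
    have hcardR : Nat.card (H ⧸ R) * Nat.card R = Nat.card H := by
      rw [← Subgroup.index_eq_card, Subgroup.index_mul_card]
    have hR2 : 1 < Nat.card R := by
      have h0 : 0 < Nat.card R := Nat.card_pos
      have : Nat.card R ≠ 1 := fun h1 => hR1 (Subgroup.card_eq_one.mp h1)
      omega
    have hQpos : 0 < Nat.card (H ⧸ R) := Nat.card_pos
    have hlt : Nat.card (H ⧸ R) < N := by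
      rw [← hN, ← hcardR]; nlinarith
    refine ih (Nat.card (H ⧸ R)) hlt (H ⧸ R) rfl (by omega) ?_ (x : H ⧸ R) (h : H ⧸ R) ?_ ?_
    · intro hd
      apply hsq
      rw [← hcardR]
      exact hd.mul_right _
    · have hd : orderOf (x : H ⧸ R) ∣ p := by
        rw [← hx]; exact orderOf_map_dvd (QuotientGroup.mk' R) x
      rcases hp.eq_one_or_self_of_dvd _ hd with h1 | h1
      · exfalso
        rw [orderOf_eq_one_iff] at h1
        have hxR : x ∈ R := (QuotientGroup.eq_one_iff x).mp h1
        apply hRp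
        rw [← hx, ← Subgroup.orderOf_mk x hxR]
        exact orderOf_dvd_natCard _
      · exact h1
    · have := congrArg (QuotientGroup.mk' R) hinv
      simpa using this
  · push Not at hR
    -- minimal normal subgroup
    have hfin : {M : Subgroup H | M.Normal ∧ M ≠ ⊥}.Finite := Set.toFinite _
    obtain ⟨M, ⟨hMn, hM1⟩, hmin⟩ := Set.exists_min_image _ (fun M : Subgroup H => Nat.card M) hfin
      ⟨⊤, inferInstance, fun htb => hx1 (by
        have : x ∈ (⊤ : Subgroup H) := trivial
        rwa [htb, Subgroup.mem_bot] at this)⟩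
    have hMp : p ∣ Nat.card M := hR M hMn hM1
    have hxp : x ^ p = 1 := by rw [← hx]; exact pow_orderOf_eq_one x
    have hxM : x ∈ M := mem_of_normal_of_dvd hp hsq M hMp hxp
    have hMdvd : Nat.card M ∣ Nat.card H := Subgroup.card_subgroup_dvd_card M
    have hMsq : ¬ p ^ 2 ∣ Nat.card M := fun h1 => hsq (h1.trans hMdvd)
    have hMle : Nat.card M ≤ Nat.card H := Nat.le_of_dvd Nat.card_pos hMdvd
    have hsimple : IsSimpleGroup M := by
      have : Nontrivial M := by
        rw [Subgroup.nontrivial_iff_ne_bot]; exact hM1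
      refine ⟨fun K hK => ?_⟩
      by_cases hKp : p ∣ Nat.card K
      · right
        let L : Subgroup H := Subgroup.normalClosure {x}
        have hLM : L ≤ M := by
          apply Subgroup.normalClosure_le_normal
          simpa using hxM
        have hL1 : L ≠ ⊥ := by
          intro hb
          have : x ∈ L := Subgroup.subset_normalClosure rfl
          rw [hb, Subgroup.mem_bot] at this
          exact hx1 this
        have hLeq : L = M := by
          apply Subgroup.eq_of_le_of_card_ge hLM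
          exact hmin L ⟨Subgroup.normalClosure_normal, hL1⟩
        have hLK : L ≤ K.map M.subtype := by
          change Subgroup.closure (Group.conjugatesOfSet {x}) ≤ _
          rw [Subgroup.closure_le]
          intro y hy
          rw [Group.mem_conjugatesOfSet_iff] at hy
          obtain ⟨a, ha, hay⟩ := hy
          rw [Set.mem_singleton_iff] at ha
          subst ha
          rw [isConj_iff] at hay
          obtain ⟨c, rfl⟩ := hay
          have hyM : c * a * c⁻¹ ∈ M := hMn.conj_mem a hxM c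
          have hyp : (⟨c * a * c⁻¹, hyM⟩ : M) ^ p = 1 := by
            ext1
            simp only [SubmonoidClass.mk_pow, OneMemClass.coe_one]
            rw [conj_pow, hxp]; group
          have := mem_of_normal_of_dvd hp hMsq K hKp hyp
          exact ⟨⟨c * a * c⁻¹, hyM⟩, this, rfl⟩
        rw [hLeq] at hLK
        rw [eq_top_iff]
        intro m _
        obtain ⟨m', hm', hmm⟩ := hLK m.2
        have : m' = m := Subtype.ext hmm
        rwa [← this]
      · left
        have hfin2 : {K : Subgroup M | K.Normal ∧ ¬ p ∣ Nat.card K}.Finite := Set.toFinite _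
        obtain ⟨K', ⟨hK'n, hK'p⟩, hmax⟩ :=
          Set.exists_max_image _ (fun K : Subgroup M => Nat.card K) hfin2 ⟨K, hK, hKp⟩
        have hinvK : ∀ g : H, K'.map (MulAut.conjNormal g : M ≃* M).toMonoidHom ≤ K' := by
          intro g
          let K2 := K'.map (MulAut.conjNormal g : M ≃* M).toMonoidHom
          have hK2n : K2.Normal := hK'n.map _ (MulAut.conjNormal g : M ≃* M).surjective
          have hK2c : Nat.card K2 = Nat.card K' :=
            Nat.card_congr (K'.equivMapOfInjective _ (MulAut.conjNormal g : M ≃* M).injective).toEquiv.symm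
          have hsup : ¬ p ∣ Nat.card (K2 ⊔ K' : Subgroup M) :=
            not_dvd_card_sup hp K2 K' (by rw [hK2c]; exact hK'p) hK'p
          have hle := hmax (K2 ⊔ K') ⟨inferInstance, hsup⟩
          have heq : K' = K2 ⊔ K' := Subgroup.eq_of_le_of_card_ge le_sup_right hle
          exact le_trans le_sup_left (le_of_eq heq.symm)
        have hn : (K'.map M.subtype).Normal := by
          refine ⟨?_⟩
          rintro _ ⟨k, hk, rfl⟩ g
          have h1 : (MulAut.conjNormal g : M ≃* M) k ∈ K' := hinvK g ⟨k, hk, rfl⟩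
          refine ⟨(MulAut.conjNormal g : M ≃* M) k, h1, ?_⟩
          simp
        have hcard' : Nat.card (K'.map M.subtype) = Nat.card K' :=
          Nat.card_congr (K'.equivMapOfInjective _ M.subtype_injective).toEquiv.symm
        have hbot : K'.map M.subtype = ⊥ := by
          by_contra hne
          exact hK'p (by rw [← hcard']; exact hR _ hn hne)
        have hK'1 : Nat.card K' = 1 := by
          rw [← hcard', hbot, Subgroup.card_bot]
        have hK1 : Nat.card K ≤ 1 := by
          rw [← hK'1]; exact hmax K ⟨hK, hKp⟩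
        have : Nat.card K = 1 := le_antisymm hK1 Nat.card_pos
        exact Subgroup.card_eq_one.mp this
    have hcomm := simple_case hC hp hbig (M := M) (by omega) hMp hMsq
    -- M is generated by x
    have hMx : M ≤ Subgroup.zpowers x := by
      let X : M := ⟨x, hxM⟩
      have hXn : (Subgroup.zpowers X).Normal := by
        refine ⟨fun a ha g => ?_⟩
        rw [hcomm g a]
        simpa using ha
      rcases hXn.eq_bot_or_eq_top with hb | ht
      · exfalso
        rw [Subgroup.zpowers_eq_bot] at hb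
        exact hx1 (congrArg Subtype.val hb)
      · intro m hm
        have : (⟨m, hm⟩ : M) ∈ Subgroup.zpowers X := by rw [ht]; trivial
        rw [Subgroup.mem_zpowers_iff] at this ⊢
        obtain ⟨z, hz⟩ := this
        exact ⟨z, by have := congrArg Subtype.val hz; simpa [X] using this⟩
    exact conj_not_mem_zpowers hp h4 hx hinv (hMx (hMn.conj_mem x hxM h))

end part_A

section part_A2

theorem structure_lemma {C p : ℕ} (hC : 0 < C) (hp : p.Prime) (h4 : p % 4 = 3)
    (hbig : 5 ^ (32 * C ^ 4) < p) {H : Type u} [Group H] [Finite H]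
    (hcard : Nat.card H < C * p ^ 2) {x h0 : H} (hx : orderOf x = p)
    (hinv0 : (h0 * h0) * x * (h0 * h0)⁻¹ = x⁻¹) :
    ∃ P : Subgroup H, P.Normal ∧ Nat.card P = p ^ 2 ∧ x ∈ P ∧
      (∀ a ∈ P, ∀ b ∈ P, a * b = b * a) ∧
      (∀ h : H, (h * h) * x * (h * h)⁻¹ = x⁻¹ → ∀ g ∈ P, (h * h) * g * (h * h)⁻¹ = g⁻¹) := by
  classical
  have : Fact p.Prime := ⟨hp⟩
  have hpC : C < p := by
    have h5 : 32 * C ^ 4 < 5 ^ (32 * C ^ 4) := Nat.lt_pow_self (by norm_num)
    have h6 : C ≤ C ^ 4 := Nat.le_self_pow (by norm_num) C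
    omega
  have hsq : p ^ 2 ∣ Nat.card H := by
    by_contra hsq
    exact no_inv hC hp h4 hbig _ H rfl hcard hsq x h0 hx hinv0
  obtain ⟨Q⟩ : Nonempty (Sylow p H) := inferInstance
  have hQcard : Nat.card Q = p ^ 2 := by
    rw [Sylow.card_eq_multiplicity]
    congr 1
    apply le_antisymm
    · by_contra h
      push Not at h
      have h1 : p ^ 3 ∣ Nat.card H := (hp.pow_dvd_iff_le_factorization Nat.card_pos.ne').mpr h
      have h2 := Nat.le_of_dvd Nat.card_pos h1
      have h3 : C * p ^ 2 ≤ p ^ 3 := by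
        rw [pow_succ p 2, mul_comm]
        gcongr
      omega
    · exact (hp.pow_dvd_iff_le_factorization Nat.card_pos.ne').mp hsq
  have hidx : (Q : Subgroup H).index < p := by
    have h1 := (Q : Subgroup H).card_mul_index
    have h2 : Nat.card (Q : Subgroup H) = p ^ 2 := hQcard
    rw [h2] at h1
    have h3 : p ^ 2 * (Q : Subgroup H).index < p ^ 2 * C := by
      rw [h1]; rwa [mul_comm]
    exact (Nat.lt_of_mul_lt_mul_left h3).trans hpC
  have hone : Nat.card (Sylow p H) = 1 := by
    have h1 : Nat.card (Sylow p H) % p = 1 % p := card_sylow_modEq_one p H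
    have h2 : Nat.card (Sylow p H) ∣ (Q : Subgroup H).index := Q.card_dvd_index
    have h3 : 0 < (Q : Subgroup H).index := Nat.pos_of_ne_zero Subgroup.index_ne_zero_of_finite
    have h4 := Nat.le_of_dvd h3 h2
    rw [Nat.mod_eq_of_lt hp.one_lt, Nat.mod_eq_of_lt (by omega)] at h1
    exact h1
  have hsub : Subsingleton (Sylow p H) := (Nat.card_eq_one_iff_unique.mp hone).1
  have hQn : (Q : Subgroup H).Normal := Q.normal_of_subsingleton
  have hxQ : x ∈ (Q : Subgroup H) := by
    have hP : IsPGroup p (Subgroup.zpowers x) := by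
      apply IsPGroup.of_card (n := 1)
      rw [Nat.card_zpowers, hx, pow_one]
    obtain ⟨Q', hQ'⟩ := hP.exists_le_sylow
    have : Q' = Q := Subsingleton.elim _ _
    rw [← this]
    exact hQ' (Subgroup.mem_zpowers x)
  have hcomm : ∀ a ∈ (Q : Subgroup H), ∀ b ∈ (Q : Subgroup H), a * b = b * a := by
    intro a ha b hb
    have h1 := IsPGroup.commutative_of_card_eq_prime_sq (G := (Q : Subgroup H)) hQcard
      ⟨a, ha⟩ ⟨b, hb⟩
    exact congrArg Subtype.val h1
  refine ⟨Q, hQn, hQcard, hxQ, hcomm, ?_⟩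
  intro h hinv g hg
  set t := h * h with ht
  let I : Subgroup H :=
    { carrier := {g | g ∈ (Q : Subgroup H) ∧ t * g * t⁻¹ = g⁻¹}
      one_mem' := ⟨one_mem _, by simp⟩
      mul_mem' := by
        rintro a b ⟨ha, ha'⟩ ⟨hb, hb'⟩
        refine ⟨mul_mem ha hb, ?_⟩
        rw [hcomm a ha b hb]
        have : t * (b * a) * t⁻¹ = (t * b * t⁻¹) * (t * a * t⁻¹) := by group
        rw [this, ha', hb', ← mul_inv_rev, hcomm a ha b hb]
      inv_mem' := by
        rintro a ⟨ha, ha'⟩
        refine ⟨inv_mem ha, ?_⟩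
        rw [← conj_inv, ha'] }
  have hIQ : I ≤ (Q : Subgroup H) := fun g hg => hg.1
  have hxI : x ∈ I := ⟨hxQ, hinv⟩
  have hyI : h * x * h⁻¹ ∈ I := by
    refine ⟨hQn.conj_mem x hxQ h, ?_⟩
    have h1 : t * (h * x * h⁻¹) * t⁻¹ = h * (t * x * t⁻¹) * h⁻¹ := by
      rw [ht]; group
    rw [h1, hinv, conj_inv]
  have hnot := conj_not_mem_zpowers hp h4 hx hinv
  have hdvd : Nat.card I ∣ p ^ 2 := by
    rw [← hQcard]; exact Subgroup.card_dvd_of_le hIQ
  have hpI : p ∣ Nat.card I := by
    rw [← hx, ← Subgroup.orderOf_mk x hxI]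
    exact orderOf_dvd_natCard _
  have hcI : Nat.card I = p ^ 2 := by
    obtain ⟨k, hk, hk'⟩ := (Nat.dvd_prime_pow hp).mp hdvd
    interval_cases k
    · rw [hk'] at hpI
      simp at hpI
      exact absurd hpI hp.one_lt.ne'
    · exfalso
      apply hnot
      have : Subgroup.zpowers x = I := by
        apply Subgroup.eq_of_le_of_card_ge
        · rw [Subgroup.zpowers_le]; exact hxI
        · rw [hk', Nat.card_zpowers, hx, pow_one]
      rw [this]
      exact hyI
    · exact hk'
  have hIeq : I = (Q : Subgroup H) := Subgroup.eq_of_le_of_card_ge hIQ (by rw [hcI]; exact hQcard.le)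
  have : g ∈ I := by rw [hIeq]; exact hg
  exact this.2

end part_A2

section part_B

section alg

lemma sq_sandwich {Y : Type*} [Group Y] {A B S T : Y} (hA : A * A = S) (hB : B * B = T)
    (hT2 : T * T = 1) (cS : ∀ y, y * S = S * y) (cT : ∀ y, y * T = T * y) :
    (B * A * B) * (B * A * B) = S := by
  calc (B * A * B) * (B * A * B) = B * A * (B * B) * A * B := by group
    _ = (B * A) * T * A * B := by rw [hB]
    _ = T * (B * A) * A * B := by rw [cT]
    _ = T * B * (A * A) * B := by group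
    _ = T * B * S * B := by rw [hA]
    _ = T * (S * B) * B := by rw [mul_assoc T, cS]
    _ = T * S * (B * B) := by group
    _ = T * S * T := by rw [hB]
    _ = T * (T * S) := by rw [mul_assoc, cT]
    _ = S := by rw [← mul_assoc, hT2, one_mul]

lemma braid_eq {Y : Type*} [Group Y] {A B S T v : Y} (hA : A * A = S) (hB : B * B = T)
    (hS2 : S * S = 1) (hT2 : T * T = 1) (hv2 : v * v = 1)
    (cS : ∀ y, y * S = S * y) (cT : ∀ y, y * T = T * y) (cv : ∀ y, y * v = v * y)
    (h : (A * B) * (A * B) * (A * B) = v) : S = T := by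
  have h0 := sq_sandwich hA hB hT2 cS cT
  have h2 := sq_sandwich hB hA hS2 cT cS
  have h1 : A * B * A = v * (S * (B * A * B)) := by
    have e1 : (A * B * A) * (B * A * B) = v := by rw [← h]; group
    have e2 : A * B * A = v * (B * A * B)⁻¹ := eq_mul_inv_of_mul_eq e1
    have e3 : (B * A * B)⁻¹ = S * (B * A * B) := by
      apply inv_eq_of_mul_eq_one_right
      rw [← mul_assoc, cS, mul_assoc, h0, hS2]
    rw [e2, e3]
  have h3 : (v * (S * (B * A * B))) * (v * (S * (B * A * B))) = S := by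
    calc (v * (S * (B * A * B))) * (v * (S * (B * A * B)))
        = v * ((S * (B * A * B)) * v) * (S * (B * A * B)) := by group
      _ = v * (v * (S * (B * A * B))) * (S * (B * A * B)) := by rw [cv]
      _ = (v * v) * S * ((B * A * B) * S) * (B * A * B) := by group
      _ = (v * v) * S * (S * (B * A * B)) * (B * A * B) := by rw [cS (B * A * B)]
      _ = (v * v) * (S * S) * ((B * A * B) * (B * A * B)) := by group
      _ = S := by rw [hv2, hS2, h0]; simp
  rw [← h1, h2] at h3
  exact h3.symm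

end alg

/-- Conclusions for a group `X0` of order four. -/
lemma four_elements {X : Type*} [Group X] [Finite X] (X0 : Subgroup X) (h4 : Nat.card X0 = 4)
    {z w : X} (hz : z ∈ X0) (hw : w ∈ X0) (hz1 : z ≠ 1) (hw1 : w ≠ 1) (hzw : z * w ≠ 1)
    (hne : z ≠ w) : ∀ g ∈ X0, g = 1 ∨ g = z ∨ g = w ∨ g = z * w := by
  classical
  let F : Finset X := {1, z, w, z * w}
  have hF : F.card = 4 := by
    rw [Finset.card_insert_of_notMem, Finset.card_insert_of_notMem, Finset.card_insert_of_notMem,
      Finset.card_singleton]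
    · simp only [Finset.mem_singleton]
      intro h
      exact hz1 (by simpa using h.symm)
    · simp only [Finset.mem_insert, Finset.mem_singleton, not_or]
      exact ⟨hne, fun h => hw1 (by simpa using h)⟩
    · simp only [Finset.mem_insert, Finset.mem_singleton, not_or]
      exact ⟨hz1.symm, hw1.symm, hzw.symm⟩
  have hsub : (F : Set X) ⊆ (X0 : Set X) := by
    intro g hg
    simp only [F, Finset.coe_insert, Finset.coe_singleton, Set.mem_insert_iff,
      Set.mem_singleton_iff] at hg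
    rcases hg with rfl | rfl | rfl | rfl
    · exact one_mem _
    · exact hz
    · exact hw
    · exact mul_mem hz hw
  have heq : (F : Set X) = (X0 : Set X) := by
    apply Set.eq_of_subset_of_ncard_le hsub
    rw [Set.ncard_coe_finset, hF]
    exact le_of_eq h4
  intro g hg
  have : g ∈ (F : Set X) := by rw [heq]; exact hg
  simpa [F] using this

section main

variable {X : Type*} [Group X] [Finite X] (X0 : Subgroup X) [X0.Normal] {a b c s t z : X}

/-- Case where `X0` has order two or six. -/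
lemma case_two_six (hcard : Nat.card X0 = 2 ∨ Nat.card X0 = 6) (hz0 : z ∈ X0) (hz1 : z ≠ 1)
    (hz2 : z * z = 1) (a w : X) (hw : w ∈ X0) (hrel : (a * w * a⁻¹) * w = z) : False := by
  have : Fact (Nat.Prime 3) := ⟨Nat.prime_three⟩
  obtain ⟨P⟩ : Nonempty (Sylow 3 X0) := inferInstance
  have hf6 : (6 : ℕ).factorization 3 = 1 := by
    have : (6 : ℕ) = 2 * 3 := by norm_num
    rw [this, Nat.factorization_mul (by norm_num) (by norm_num)]
    simp [Nat.Prime.factorization Nat.prime_two, Nat.Prime.factorization Nat.prime_three]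
  have hf2 : (2 : ℕ).factorization 3 = 0 := by
    simp [Nat.Prime.factorization Nat.prime_two]
  have hPc : Nat.card (P : Subgroup X0) = 1 ∨ Nat.card (P : Subgroup X0) = 3 := by
    have h1 : Nat.card (P : Subgroup X0) = 3 ^ (Nat.card X0).factorization 3 :=
      P.card_eq_multiplicity
    rcases hcard with h | h
    · left; rw [h1, h, hf2, pow_zero]
    · right; rw [h1, h, hf6, pow_one]
  have hidx : (P : Subgroup X0).index = 2 := by
    have h1 : Nat.card (P : Subgroup X0) = 3 ^ (Nat.card X0).factorization 3 :=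
      P.card_eq_multiplicity
    have h2 := (P : Subgroup X0).card_mul_index
    rcases hcard with h | h
    · rw [h, hf2, pow_zero] at h1
      rw [h1, h] at h2
      omega
    · rw [h, hf6, pow_one] at h1
      rw [h1, h] at h2
      omega
  have hPn : (P : Subgroup X0).Normal := Subgroup.normal_of_index_eq_two hidx
  have hPch : (P : Subgroup X0).Characteristic := P.characteristic_of_normal hPn
  let φ : X0 ≃* X0 := MulAut.conjNormal a
  let w0 : X0 := ⟨w, hw⟩
  let z0 : X0 := ⟨z, hz0⟩
  have h1 : φ w0 * w0 = z0 := by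
    ext1
    simp only [Subgroup.coe_mul, z0, w0, φ]
    rw [MulAut.conjNormal_apply]
    exact hrel
  have h2 : φ w0 ∈ (P : Subgroup X0) ↔ w0 ∈ (P : Subgroup X0) := by
    have := Subgroup.characteristic_iff_comap_eq.mp hPch φ
    conv_rhs => rw [← this]
    rfl
  have h3 : z0 ∈ (P : Subgroup X0) := by
    rw [← h1, Subgroup.mul_mem_iff_of_index_two hidx]
    exact h2
  have h4 : orderOf z0 = 2 := by
    apply orderOf_eq_prime
    · ext1; simpa [z0, pow_two] using hz2
    · intro h; exact hz1 (congrArg Subtype.val h)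
  have h5 : orderOf z0 ∣ Nat.card (P : Subgroup X0) := by
    rw [← Subgroup.orderOf_mk z0 h3]
    exact orderOf_dvd_natCard _
  rw [h4] at h5
  rcases hPc with h | h <;> rw [h] at h5 <;> omega

omit [Finite X] in
/-- The basic relation: if `u = g * g` and `q` satisfy `u q u⁻¹ q⁻¹ = z`, then
`w = g q g⁻¹ q⁻¹` satisfies `(g w g⁻¹) w = z`. -/
lemma rel_of_sq {g q u : X} (hg : g * g = u) (hz : u * q * u⁻¹ * q⁻¹ = z) :
    (g * (g * q * g⁻¹ * q⁻¹) * g⁻¹) * (g * q * g⁻¹ * q⁻¹) = z := by
  rw [← hz, ← hg]; group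

/-- one step of the case `|X0| = 4`: either `w` has square `z` and `g` commutes with `w`, or ... -/
lemma four_step (h4 : Nat.card X0 = 4) (hcomm : ∀ x ∈ X0, ∀ y ∈ X0, x * y = y * x)
    (hz0 : z ∈ X0) (hz1 : z ≠ 1) (hz2 : z * z = 1)
    {g w : X} (hw : w ∈ X0) (hrel : (g * w * g⁻¹) * w = z) :
    w ≠ 1 ∧ z ≠ w ∧ z * w ≠ 1 ∧ (w * w = z ∨ w * w = 1) := by
  have hw1 : w ≠ 1 := by
    intro h
    rw [h] at hrel
    exact hz1 (by simpa using hrel.symm)
  have hzw : z ≠ w := by
    intro h
    rw [← h] at hrel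
    have h1 : g * z * g⁻¹ = 1 := by
      have : g * z * g⁻¹ * z = 1 * z := by rw [hrel, one_mul]
      exact mul_right_cancel this
    exact hz1 (by simpa using h1)
  have hzw1 : z * w ≠ 1 := by
    intro h
    apply hzw
    have h1 : z * w = z * z := by rw [h, hz2]
    exact (mul_left_cancel h1).symm
  refine ⟨hw1, hzw, hzw1, ?_⟩
  rcases four_elements X0 h4 hz0 hw hz1 hw1 hzw1 hzw (w * w) (mul_mem hw hw) with h | h | h | h
  · exact Or.inr h
  · exact Or.inl h
  · exact absurd (by simpa using h) hw1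
  · exact absurd (mul_right_cancel h).symm hzw

/-- exponent two sub-case: the action of `g` is determined. -/
lemma four_step_v4 (h4 : Nat.card X0 = 4) (hcomm : ∀ x ∈ X0, ∀ y ∈ X0, x * y = y * x)
    (hz0 : z ∈ X0) (hz1 : z ≠ 1) (hz2 : z * z = 1)
    {g w' w : X} (hw' : w' ∈ X0) (hrel : (g * w' * g⁻¹) * w' = z)
    (hgz : (g * g) * z * (g * g)⁻¹ = z) (hw : w ∈ X0) (hexp : ∀ x ∈ X0, x * x = 1)
    (hw1 : w ≠ 1) (hzw : z ≠ w) (hzw1 : z * w ≠ 1) :
    g * z * g⁻¹ = z ∧ g * w * g⁻¹ = z * w := by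
  obtain ⟨hw'1, hzw', hzw'1, -⟩ := four_step X0 h4 hcomm hz0 hz1 hz2 hw' hrel
  have hgw' : g * w' * g⁻¹ = z * w' := by
    have h1 : g * w' * g⁻¹ * w' = z * w' * w' := by
      rw [hrel, mul_assoc, hexp w' hw', mul_one]
    exact mul_right_cancel h1
  have hgz0 : g * z * g⁻¹ ∈ X0 := (inferInstance : X0.Normal).conj_mem z hz0 g
  have hgz' : g * z * g⁻¹ = z := by
    rcases four_elements X0 h4 hz0 hw' hz1 hw'1 hzw'1 hzw' _ hgz0 with h | h | h | h
    · exact absurd (by simpa using h) hz1
    · exact h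
    · exfalso
      have h1 : (g * g) * z * (g * g)⁻¹ = g * (g * z * g⁻¹) * g⁻¹ := by group
      rw [h1, h, hgw'] at hgz
      exact hw'1 (by simpa using hgz)
    · exfalso
      rw [← hgw'] at h
      have : z = w' := by simpa using h
      exact hzw' this
  refine ⟨hgz', ?_⟩
  rcases four_elements X0 h4 hz0 hw hz1 hw1 hzw1 hzw _ hw' with h | h | h | h
  · exact absurd h hw'1
  · exact absurd h.symm hzw'
  · rw [← h]; exact hgw'
  · -- w' = z w
    rw [h] at hgw'
    have h1 : g * (z * w) * g⁻¹ = (g * z * g⁻¹) * (g * w * g⁻¹) := by group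
    rw [h1, hgz'] at hgw'
    exact mul_left_cancel hgw'

end main

end part_B

section part_B2

theorem lemB {X : Type*} [Group X] [Finite X] (X0 : Subgroup X) [X0.Normal] {a b c s t z : X}
    (ha : a * a = s) (hb : b * b = t) (hc : c * c = s * t)
    (hs : s * s = 1) (ht : t * t = 1) (hz : z = (s * t) * (s * t)) (hz1 : z ≠ 1)
    (hz2 : z * z = 1) (hz0 : z ∈ X0) (hs0 : s ∉ X0) (ht0 : t ∉ X0) (hst0 : s * t ∉ X0)
    (hcs : ∀ h, s * h * s⁻¹ * h⁻¹ ∈ X0) (hct : ∀ h, t * h * t⁻¹ * h⁻¹ ∈ X0) :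
    128 ≤ Nat.card X := by
  classical
  by_contra hlt
  push Not at hlt
  have hs' : s⁻¹ = s := inv_eq_of_mul_eq_one_right hs
  have ht' : t⁻¹ = t := inv_eq_of_mul_eq_one_right ht
  have hz' : z⁻¹ = z := inv_eq_of_mul_eq_one_right hz2
  have hts : (t * s) * (t * s) = z := by
    calc (t * s) * (t * s) = (t⁻¹ * s⁻¹) * (t⁻¹ * s⁻¹) := by rw [hs', ht']
      _ = ((s * t) * (s * t))⁻¹ := by group
      _ = z := by rw [← hz, hz']
  -- the quotient by X0
  let π : X →* X ⧸ X0 := QuotientGroup.mk' X0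
  have hπ : ∀ x, π x = 1 ↔ x ∈ X0 := fun x => QuotientGroup.eq_one_iff x
  set S := π s with hS
  set T := π t with hT
  have hS2 : S * S = 1 := by rw [hS, ← map_mul, hs, map_one]
  have hT2 : T * T = 1 := by rw [hT, ← map_mul, ht, map_one]
  have cS : ∀ y, y * S = S * y := by
    intro y
    obtain ⟨h, rfl⟩ := QuotientGroup.mk'_surjective X0 y
    have h1 : π (s * h * s⁻¹ * h⁻¹) = 1 := (hπ _).mpr (hcs h)
    rw [map_mul, map_mul, map_mul, map_inv, map_inv, mul_inv_eq_one, mul_inv_eq_iff_eq_mul] at h1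
    exact h1.symm
  have cT : ∀ y, y * T = T * y := by
    intro y
    obtain ⟨h, rfl⟩ := QuotientGroup.mk'_surjective X0 y
    have h1 : π (t * h * t⁻¹ * h⁻¹) = 1 := (hπ _).mpr (hct h)
    rw [map_mul, map_mul, map_mul, map_inv, map_inv, mul_inv_eq_one, mul_inv_eq_iff_eq_mul] at h1
    exact h1.symm
  have hS1 : S ≠ 1 := fun h => hs0 ((hπ s).mp h)
  have hT1 : T ≠ 1 := fun h => ht0 ((hπ t).mp h)
  have hST1 : S * T ≠ 1 := by
    rw [hS, hT, ← map_mul]
    exact fun h => hst0 ((hπ (s * t)).mp h)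
  have hSneT : S ≠ T := by
    intro h
    rw [h] at hST1
    exact hST1 hT2
  have hSTST : (S * T) * (S * T) = 1 := by
    calc (S * T) * (S * T) = S * (T * S) * T := by group
      _ = S * (S * T) * T := by rw [cS T]
      _ = (S * S) * (T * T) := by group
      _ = 1 := by rw [hS2, hT2, one_mul]
  let V : Subgroup (X ⧸ X0) :=
    { carrier := {y | y = 1 ∨ y = S ∨ y = T ∨ y = S * T}
      one_mem' := Or.inl rfl
      mul_mem' := by
        have e1 : T * S = S * T := cS T
        have e2 : S * (S * T) = T := by rw [← mul_assoc, hS2, one_mul]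
        have e3 : T * (S * T) = S := by rw [← mul_assoc, e1, mul_assoc, hT2, mul_one]
        have e4 : S * T * S = T := by rw [cS, e2]
        have e5 : S * T * T = S := by rw [mul_assoc, hT2, mul_one]
        rintro x y (rfl | rfl | rfl | rfl) (rfl | rfl | rfl | rfl) <;>
          simp [e1, e2, e3, e4, e5, hS2, hT2, hSTST]
      inv_mem' := by
        have e1 : S⁻¹ = S := inv_eq_of_mul_eq_one_right hS2
        have e2 : T⁻¹ = T := inv_eq_of_mul_eq_one_right hT2
        rintro x (rfl | rfl | rfl | rfl)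
        · simp
        · simp [e1]
        · simp [e2]
        · have : (S * T)⁻¹ = S * T := inv_eq_of_mul_eq_one_right hSTST
          simp [this] }
  have hVmem : ∀ y, y ∈ V ↔ y = 1 ∨ y = S ∨ y = T ∨ y = S * T := fun y => Iff.rfl
  have hVexp : ∀ v ∈ V, v * v = 1 := by
    intro v hv
    rw [hVmem] at hv
    rcases hv with rfl | rfl | rfl | rfl
    · simp
    · exact hS2
    · exact hT2
    · exact hSTST
  have hVcen : ∀ v ∈ V, ∀ y, y * v = v * y := by
    intro v hv y
    rw [hVmem] at hv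
    rcases hv with rfl | rfl | rfl | rfl
    · simp
    · exact cS y
    · exact cT y
    · rw [← mul_assoc, cS, mul_assoc, cT, ← mul_assoc]
  have hVn : V.Normal := by
    refine ⟨fun v hv g => ?_⟩
    rw [hVcen v hv g, mul_inv_cancel_right]
    exact hv
  have hVcard : Nat.card V = 4 := by
    have h1 : (({1, S, T, S * T} : Finset (X ⧸ X0)) : Set (X ⧸ X0)) = (V : Set (X ⧸ X0)) := by
      ext y
      simp only [Finset.coe_insert, Finset.coe_singleton, Set.mem_insert_iff,
        Set.mem_singleton_iff, SetLike.mem_coe]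
      exact (hVmem y).symm
    have h2 : ({1, S, T, S * T} : Finset (X ⧸ X0)).card = 4 := by
      rw [Finset.card_insert_of_notMem, Finset.card_insert_of_notMem,
        Finset.card_insert_of_notMem, Finset.card_singleton]
      · simp only [Finset.mem_singleton]
        intro h
        exact hS1 (by simpa using h.symm)
      · simp only [Finset.mem_insert, Finset.mem_singleton, not_or]
        exact ⟨hSneT, fun h => hT1 (by simpa using h)⟩
      · simp only [Finset.mem_insert, Finset.mem_singleton, not_or]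
        exact ⟨hS1.symm, hT1.symm, hST1.symm⟩
    have h3 : Nat.card V = (V : Set (X ⧸ X0)).ncard := rfl
    rw [h3, ← h1, Set.ncard_coe_finset, h2]
  -- the quotient by V
  let ψ : X →* (X ⧸ X0) ⧸ V := (QuotientGroup.mk' V).comp π
  have hψ : ∀ x y, ψ x = ψ y ↔ (π x)⁻¹ * π y ∈ V := fun x y => QuotientGroup.eq
  have hψsq : ∀ x y, ψ x = ψ y → π x * π x = π y * π y := by
    intro x y hxy
    rw [hψ] at hxy
    have h1 : π y = π x * ((π x)⁻¹ * π y) := by group
    set v := (π x)⁻¹ * π y with hv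
    rw [h1]
    calc π x * π x = π x * π x * (v * v) := by rw [hVexp v hxy, mul_one]
      _ = π x * (π x * v) * v := by group
      _ = π x * (v * π x) * v := by rw [hVcen v hxy (π x)]
      _ = (π x * v) * (π x * v) := by group
  have hπa : π a * π a = S := by rw [← map_mul, ha]
  have hπb : π b * π b = T := by rw [← map_mul, hb]
  have hπc : π c * π c = S * T := by rw [← map_mul, hc, map_mul]
  have hψa1 : ψ a ≠ 1 := by
    intro h
    have := hψsq a 1 (by rw [h, map_one])
    rw [hπa, map_one, mul_one] at this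
    exact hS1 this
  have hψb1 : ψ b ≠ 1 := by
    intro h
    have := hψsq b 1 (by rw [h, map_one])
    rw [hπb, map_one, mul_one] at this
    exact hT1 this
  have hψc1 : ψ c ≠ 1 := by
    intro h
    have := hψsq c 1 (by rw [h, map_one])
    rw [hπc, map_one, mul_one] at this
    exact hST1 this
  have hψab : ψ a ≠ ψ b := by
    intro h
    have := hψsq a b h
    rw [hπa, hπb] at this
    exact hSneT this
  have hψac : ψ a ≠ ψ c := by
    intro h
    have := hψsq a c h
    rw [hπa, hπc] at this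
    exact hT1 (by simpa using this.symm)
  have hψbc : ψ b ≠ ψ c := by
    intro h
    have := hψsq b c h
    rw [hπb, hπc] at this
    exact hS1 (by simpa using this.symm)
  have hZ4 : 4 ≤ Nat.card ((X ⧸ X0) ⧸ V) := by
    have h1 : ({1, ψ a, ψ b, ψ c} : Finset ((X ⧸ X0) ⧸ V)).card = 4 := by
      rw [Finset.card_insert_of_notMem, Finset.card_insert_of_notMem,
        Finset.card_insert_of_notMem, Finset.card_singleton]
      · simp only [Finset.mem_singleton]
        exact hψbc
      · simp only [Finset.mem_insert, Finset.mem_singleton, not_or]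
        exact ⟨hψab, hψac⟩
      · simp only [Finset.mem_insert, Finset.mem_singleton, not_or]
        exact ⟨hψa1.symm, hψb1.symm, hψc1.symm⟩
    have := Fintype.ofFinite ((X ⧸ X0) ⧸ V)
    rw [Nat.card_eq_fintype_card, ← h1]
    exact Finset.card_le_univ _
  have hcard1 : Nat.card X = Nat.card (X ⧸ X0) * Nat.card X0 :=
    Subgroup.card_eq_card_quotient_mul_card_subgroup X0
  have hcard2 : Nat.card (X ⧸ X0) = Nat.card ((X ⧸ X0) ⧸ V) * Nat.card V :=
    Subgroup.card_eq_card_quotient_mul_card_subgroup V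
  rw [hVcard] at hcard2
  rw [hcard2] at hcard1
  set k := Nat.card ((X ⧸ X0) ⧸ V) with hk
  set m := Nat.card X0 with hm
  have hmpos : 0 < m := Nat.card_pos
  have hmeven : 2 ∣ m := by
    have h4 : orderOf (⟨z, hz0⟩ : X0) = 2 := by
      apply orderOf_eq_prime
      · ext1; simpa [pow_two] using hz2
      · intro h; exact hz1 (congrArg Subtype.val h)
    rw [← h4]
    exact orderOf_dvd_natCard _
  have hkm : k * 4 * m < 128 := by omega
  have hm8 : m < 8 := by
    by_contra h8
    push Not at h8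
    have : 4 * 4 * 8 ≤ k * 4 * m := by gcongr
    omega
  -- relations
  have hstz : s * t * s⁻¹ * t⁻¹ = z := by rw [hs', ht', hz]; group
  have htsz : t * s * t⁻¹ * s⁻¹ = z := by rw [hs', ht', ← hts]; group
  have hstsz : (s * t) * s * (s * t)⁻¹ * s⁻¹ = z := by
    have : (s * t) * s * (s * t)⁻¹ * s⁻¹ = s * (t * s * t⁻¹ * s⁻¹) * s⁻¹ := by group
    rw [this, htsz, hs', hz]
    calc s * (s * t * (s * t)) * s = (s * s) * (t * s) * (t * s) := by group
      _ = z := by rw [hs, one_mul, hts]
      _ = s * t * (s * t) := hz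
  have hwa : a * t * a⁻¹ * t⁻¹ ∈ X0 := by
    have := X0.inv_mem (hct a)
    have e : (t * a * t⁻¹ * a⁻¹)⁻¹ = a * t * a⁻¹ * t⁻¹ := by group
    rwa [e] at this
  have hwb : b * s * b⁻¹ * s⁻¹ ∈ X0 := by
    have := X0.inv_mem (hcs b)
    have e : (s * b * s⁻¹ * b⁻¹)⁻¹ = b * s * b⁻¹ * s⁻¹ := by group
    rwa [e] at this
  have hwc : c * s * c⁻¹ * s⁻¹ ∈ X0 := by
    have := X0.inv_mem (hcs c)
    have e : (s * c * s⁻¹ * c⁻¹)⁻¹ = c * s * c⁻¹ * s⁻¹ := by group
    rwa [e] at this
  have hra := rel_of_sq ha hstz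
  have hrb := rel_of_sq hb htsz
  have hrc := rel_of_sq hc hstsz
  have hcases : m = 2 ∨ m = 4 ∨ m = 6 := by omega
  rcases hcases with h2 | h4 | h6
  · exact case_two_six X0 (Or.inl h2) hz0 hz1 hz2 a _ hwa hra
  · -- order four
    have hk8 : k < 8 := by
      rw [h4] at hkm; omega
    have hcomm : ∀ x ∈ X0, ∀ y ∈ X0, x * y = y * x := by
      have : Fact (Nat.Prime 2) := ⟨Nat.prime_two⟩
      intro x hx y hy
      have h1 := (IsPGroup.isMulCommutative_of_card_eq_prime_sq (p := 2) (G := X0)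
        (by rw [← hm, h4]; norm_num)).is_comm.comm ⟨x, hx⟩ ⟨y, hy⟩
      exact congrArg Subtype.val h1
    set w := a * t * a⁻¹ * t⁻¹ with hw
    obtain ⟨hw1, hzw, hzw1, hsq⟩ := four_step X0 h4 hcomm hz0 hz1 hz2 hwa hra
    have hall := four_elements X0 h4 hz0 hwa hz1 hw1 hzw1 hzw
    rcases hsq with hsq | hsq
    · -- cyclic case
      have haw : a * w * a⁻¹ = w := by
        have : a * w * a⁻¹ * w = w * w := by rw [hra, hsq]
        exact mul_right_cancel this
      obtain ⟨hwb1, hzwb, -, -⟩ := four_step X0 h4 hcomm hz0 hz1 hz2 hwb hrb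
      have hbw : b * w * b⁻¹ = w := by
        rcases hall _ hwb with h | h | h | h
        · exact absurd h hwb1
        · exact absurd h.symm hzwb
        · rw [h] at hrb
          have : b * w * b⁻¹ * w = w * w := by rw [hrb, hsq]
          exact mul_right_cancel this
        · have hinv : z * w = w⁻¹ := by
            symm
            apply inv_eq_of_mul_eq_one_right
            rw [← mul_assoc, hcomm w hwa z hz0, mul_assoc, hsq, hz2]
          rw [h, hinv] at hrb
          have h1 : b * w⁻¹ * b⁻¹ * w⁻¹ = w⁻¹ * w⁻¹ := by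
            rw [hrb, ← mul_inv_rev, hsq, hz']
          have h2 := mul_right_cancel h1
          have h3 : (b * w⁻¹ * b⁻¹)⁻¹ = w := by rw [h2, inv_inv]
          calc b * w * b⁻¹ = (b * w⁻¹ * b⁻¹)⁻¹ := by group
            _ = w := h3
      have htw : t * w * t⁻¹ = w := by
        rw [← hb]
        have : b * b * w * (b * b)⁻¹ = b * (b * w * b⁻¹) * b⁻¹ := by group
        rw [this, hbw, hbw]
      have h1 : w * t = a * t * a⁻¹ := by rw [hw]; group
      have h2 : (w * t) * (w * t) = 1 := by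
        rw [h1]
        have : a * t * a⁻¹ * (a * t * a⁻¹) = a * (t * t) * a⁻¹ := by group
        rw [this, ht]; group
      have h3 : (w * t) * (w * t) = z := by
        calc (w * t) * (w * t) = w * (t * w * t⁻¹) * (t * t) := by group
          _ = z := by rw [htw, ht, mul_one, hsq]
      exact hz1 (h3.symm.trans h2)
    · -- exponent two case
      have hexp : ∀ x ∈ X0, x * x = 1 := by
        intro x hx
        rcases hall x hx with rfl | rfl | rfl | rfl
        · simp
        · exact hz2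
        · exact hsq
        · calc z * w * (z * w) = z * (w * z) * w := by group
            _ = z * (z * w) * w := by rw [hcomm w hwa z hz0]
            _ = (z * z) * (w * w) := by group
            _ = 1 := by rw [hz2, hsq, one_mul]
      have hsz : s * z * s⁻¹ = z := by
        rw [hs']
        calc s * z * s = (s * s) * (t * s) * (t * s) := by rw [hz]; group
          _ = z := by rw [hs, one_mul, hts]
      have htz : t * z * t⁻¹ = z := by
        rw [ht']
        calc t * z * t = t * (t * s * (t * s)) * t := by rw [hts]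
          _ = (t * t) * (s * t) * (s * t) := by group
          _ = z := by rw [ht, one_mul, hz]
      have hstz' : (s * t) * z * (s * t)⁻¹ = z := by
        have : (s * t) * z * (s * t)⁻¹ = s * (t * z * t⁻¹) * s⁻¹ := by group
        rw [this, htz, hsz]
      obtain ⟨haz, haw⟩ := four_step_v4 X0 h4 hcomm hz0 hz1 hz2 hwa hra (by rw [ha]; exact hsz)
        hwa hexp hw1 hzw hzw1
      obtain ⟨hbz, hbw⟩ := four_step_v4 X0 h4 hcomm hz0 hz1 hz2 hwb hrb (by rw [hb]; exact htz)
        hwa hexp hw1 hzw hzw1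
      obtain ⟨hcz, hcw⟩ := four_step_v4 X0 h4 hcomm hz0 hz1 hz2 hwc hrc (by rw [hc]; exact hstz')
        hwa hexp hw1 hzw hzw1
      -- products of two
      have hprod : ∀ g h : X, g * z * g⁻¹ = z → g * w * g⁻¹ = z * w → h * z * h⁻¹ = z →
          h * w * h⁻¹ = z * w → (g * h) * z * (g * h)⁻¹ = z ∧ (g * h) * w * (g * h)⁻¹ = w := by
        intro g h hgz hgw hhz hhw
        constructor
        · have : (g * h) * z * (g * h)⁻¹ = g * (h * z * h⁻¹) * g⁻¹ := by group
          rw [this, hhz, hgz]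
        · have : (g * h) * w * (g * h)⁻¹ = g * (h * w * h⁻¹) * g⁻¹ := by group
          rw [this, hhw]
          have : g * (z * w) * g⁻¹ = (g * z * g⁻¹) * (g * w * g⁻¹) := by group
          rw [this, hgz, hgw, ← mul_assoc, hz2, one_mul]
      let C0 : Subgroup X := Subgroup.centralizer (X0 : Set X)
      have hC0 : ∀ g : X, g * z * g⁻¹ = z → g * w * g⁻¹ = w → g ∈ C0 := by
        intro g hgz hgw
        rw [Subgroup.mem_centralizer_iff]
        intro x hx
        have hgz' : z * g = g * z := by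
          rw [mul_inv_eq_iff_eq_mul] at hgz; exact hgz.symm
        have hgw' : w * g = g * w := by
          rw [mul_inv_eq_iff_eq_mul] at hgw; exact hgw.symm
        rcases hall x hx with rfl | rfl | rfl | rfl
        · simp
        · exact hgz'
        · exact hgw'
        · rw [mul_assoc, hgw', ← mul_assoc, hgz', mul_assoc]
      have hnC0 : ∀ g : X, g * w * g⁻¹ = z * w → g ∉ C0 := by
        intro g hgw hg
        rw [Subgroup.mem_centralizer_iff] at hg
        have h1 := hg w hwa
        have h2 : g * w * g⁻¹ = w := by rw [mul_inv_eq_iff_eq_mul]; exact h1.symm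
        rw [h2] at hgw
        exact hz1 (by simpa using hgw.symm)
      have hX0C : X0 ≤ C0 := by
        intro x hx
        rw [Subgroup.mem_centralizer_iff]
        intro y hy
        exact hcomm y hy x hx
      have hsC : s ∈ C0 := by
        obtain ⟨h1, h2⟩ := hprod a a haz haw haz haw
        rw [ha] at h1 h2
        exact hC0 s h1 h2
      have htC : t ∈ C0 := by
        obtain ⟨h1, h2⟩ := hprod b b hbz hbw hbz hbw
        rw [hb] at h1 h2
        exact hC0 t h1 h2
      have habC : a * b ∈ C0 := by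
        obtain ⟨h1, h2⟩ := hprod a b haz haw hbz hbw
        exact hC0 _ h1 h2
      have hacC : a * c ∈ C0 := by
        obtain ⟨h1, h2⟩ := hprod a c haz haw hcz hcw
        exact hC0 _ h1 h2
      have hker : ∀ x, ψ x = 1 → x ∈ C0 := by
        intro x hx
        have h1 := (hψ 1 x).mp (by rw [map_one, hx])
        rw [map_one, inv_one, one_mul, hVmem] at h1
        have hstep : ∀ u, u ∈ C0 → π x = π u → x ∈ C0 := by
          intro u hu hxu
          have h2 : u⁻¹ * x ∈ X0 := by
            rw [← hπ, map_mul, map_inv, hxu, inv_mul_cancel]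
          have h3 : x = u * (u⁻¹ * x) := by group
          rw [h3]
          exact mul_mem hu (hX0C h2)
        rcases h1 with h1 | h1 | h1 | h1
        · exact hstep 1 (one_mem _) (by rw [h1, map_one])
        · exact hstep s hsC h1
        · exact hstep t htC h1
        · exact hstep (s * t) (mul_mem hsC htC) (by rw [h1, map_mul])
      let Z0 : Subgroup ((X ⧸ X0) ⧸ V) := C0.map ψ
      have hZ0mem : ∀ x, ψ x ∈ Z0 → x ∈ C0 := by
        rintro x ⟨y, hy, hyx⟩
        have h1 : ψ (y⁻¹ * x) = 1 := by rw [map_mul, map_inv, hyx, inv_mul_cancel]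
        have h2 := hker _ h1
        have h3 : x = y * (y⁻¹ * x) := by group
        rw [h3]
        exact mul_mem hy h2
      have hψb2 : ψ b * ψ b = 1 := by
        rw [← map_mul, hb]
        have : ψ t = ψ 1 := by
          rw [hψ, map_one, mul_one]
          exact V.inv_mem (Or.inr (Or.inr (Or.inl rfl)))
        rw [this, map_one]
      have hψa2 : ψ a * ψ a = 1 := by
        rw [← map_mul, ha]
        have : ψ s = ψ 1 := by
          rw [hψ, map_one, mul_one]
          exact V.inv_mem (Or.inr (Or.inl rfl))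
        rw [this, map_one]
      have hψainv : (ψ a)⁻¹ = ψ a := inv_eq_of_mul_eq_one_right hψa2
      have h1ab : ψ (a * b) ≠ 1 := by
        rw [map_mul]
        intro h
        have := eq_inv_of_mul_eq_one_right h
        rw [hψainv] at this
        exact hψab this.symm
      have h1ac : ψ (a * c) ≠ 1 := by
        rw [map_mul]
        intro h
        have := eq_inv_of_mul_eq_one_right h
        rw [hψainv] at this
        exact hψac this.symm
      have habac : ψ (a * b) ≠ ψ (a * c) := by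
        rw [map_mul, map_mul]
        intro h
        exact hψbc (mul_left_cancel h)
      have hZ03 : 3 ≤ Nat.card Z0 := by
        have h1 : ({1, ψ (a * b), ψ (a * c)} : Finset ((X ⧸ X0) ⧸ V)).card = 3 := by
          rw [Finset.card_insert_of_notMem, Finset.card_insert_of_notMem,
            Finset.card_singleton]
          · simp only [Finset.mem_singleton]
            exact habac
          · simp only [Finset.mem_insert, Finset.mem_singleton, not_or]
            exact ⟨h1ab.symm, h1ac.symm⟩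
        have h2 : (({1, ψ (a * b), ψ (a * c)} : Finset ((X ⧸ X0) ⧸ V)) : Set ((X ⧸ X0) ⧸ V)) ⊆ Z0 := by
          intro y hy
          simp only [Finset.coe_insert, Finset.coe_singleton, Set.mem_insert_iff,
            Set.mem_singleton_iff] at hy
          rcases hy with rfl | rfl | rfl
          · exact one_mem _
          · exact ⟨_, habC, rfl⟩
          · exact ⟨_, hacC, rfl⟩
        have h3 := Set.ncard_le_ncard h2 (Set.toFinite _)
        rw [Set.ncard_coe_finset, h1] at h3
        exact h3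
      have hZ0top : Z0 ≠ ⊤ := by
        intro h
        exact hnC0 a haw (hZ0mem a (by rw [h]; trivial))
      have hidx := Z0.card_mul_index
      have hi1 : Z0.index ≠ 1 := by rwa [Ne, Subgroup.index_eq_one]
      have hi0 : Z0.index ≠ 0 := Subgroup.index_ne_zero_of_finite
      have hi2 : 2 ≤ Z0.index := by omega
      have hZ0card : Nat.card Z0 = 3 := by
        rw [← hk] at hidx
        by_contra hne
        have h4' : 4 ≤ Nat.card Z0 := by omega
        have : 4 * 2 ≤ Nat.card Z0 * Z0.index := Nat.mul_le_mul h4' hi2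
        omega
      have hcube : ψ ((a * b) * (a * b) * (a * b)) = 1 := by
        have h1 : (⟨ψ (a * b), ⟨_, habC, rfl⟩⟩ : Z0) ^ 3 = 1 := by
          rw [← hZ0card]; exact pow_card_eq_one'
        have h2 := congrArg Subtype.val h1
        rw [map_mul, map_mul]
        simpa [pow_succ] using h2
      have hv := (hψ 1 ((a * b) * (a * b) * (a * b))).mp (by rw [map_one]; exact hcube.symm)
      rw [map_one, inv_one, one_mul] at hv
      apply hSneT
      refine braid_eq hπa hπb hS2 hT2 (hVexp _ hv) cS cT (hVcen _ hv) ?_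
      rw [map_mul, map_mul, map_mul]
  · exact case_two_six X0 (Or.inr h6) hz0 hz1 hz2 a _ hwa hra

end part_B2

section part_Lo

theorem structure_lemma' : ∃ B : ℕ → ℕ, (∀ C, C ≤ B C) ∧
    ∀ (C p : ℕ), 0 < C → p.Prime → p % 4 = 3 → B C < p →
    ∀ (H : Type u) [Group H] [Finite H], Nat.card H < C * p ^ 2 → ∀ x h0 : H, orderOf x = p →
    (h0 * h0) * x * (h0 * h0)⁻¹ = x⁻¹ →
    ∃ P : Subgroup H, P.Normal ∧ Nat.card P = p ^ 2 ∧ x ∈ P ∧
      (∀ a ∈ P, ∀ b ∈ P, a * b = b * a) ∧
      (∀ h : H, (h * h) * x * (h * h)⁻¹ = x⁻¹ → ∀ g ∈ P, (h * h) * g * (h * h)⁻¹ = g⁻¹) := by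
  refine ⟨fun C => 5 ^ (32 * C ^ 4), ?_, ?_⟩
  · intro C
    have h5 : 32 * C ^ 4 < 5 ^ (32 * C ^ 4) := Nat.lt_pow_self (by norm_num)
    have h6 : C ≤ C ^ 4 := Nat.le_self_pow (by norm_num) C
    simp only
    omega
  · intro C p hC hp h4 hbig H _ _ hcard x h0 hx hinv
    exact structure_lemma hC hp h4 hbig hcard hx hinv

/-- If `s` is an involution acting on the normal subgroup `K` trivially or by inversion, then
all commutators `[s, h]` centralise `K`. -/
lemma comm_centralises {G : Type*} [Group G] (K : Subgroup G) [K.Normal] {s : G} (hs : s * s = 1)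
    (hact : (∀ g ∈ K, s * g * s⁻¹ = g) ∨ (∀ g ∈ K, s * g * s⁻¹ = g⁻¹)) (h : G) :
    ∀ g ∈ K, (s * h * s⁻¹ * h⁻¹) * g * (s * h * s⁻¹ * h⁻¹)⁻¹ = g := by
  intro g hg
  have hs' : s⁻¹ = s := inv_eq_of_mul_eq_one_right hs
  have hu : h⁻¹ * g * h ∈ K := by
    have := (inferInstance : K.Normal).conj_mem g hg h⁻¹
    simpa using this
  have e : (s * h * s⁻¹ * h⁻¹) * g * (s * h * s⁻¹ * h⁻¹)⁻¹
      = s * (h * (s⁻¹ * (h⁻¹ * g * h) * s⁻¹⁻¹) * h⁻¹) * s⁻¹ := by group
  rw [e]
  rcases hact with hact | hact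
  · have h1 : s⁻¹ * (h⁻¹ * g * h) * s⁻¹⁻¹ = h⁻¹ * g * h := by
      rw [hs']; exact hact _ hu
    rw [h1]
    have h2 : h * (h⁻¹ * g * h) * h⁻¹ = g := by group
    rw [h2]
    exact hact g hg
  · have h1 : s⁻¹ * (h⁻¹ * g * h) * s⁻¹⁻¹ = (h⁻¹ * g * h)⁻¹ := by
      rw [hs']; exact hact _ hu
    rw [h1]
    have h2 : h * (h⁻¹ * g * h)⁻¹ * h⁻¹ = g⁻¹ := by group
    rw [h2, hact _ (K.inv_mem hg), inv_inv]

/-- From inversion by `t` and by `s t` (with `t` an involution) we get that `s` centralises. -/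
lemma centralises_of_inv {G : Type*} [Group G] (K : Subgroup G) {s t : G} (ht : t * t = 1)
    (h1 : ∀ g ∈ K, t * g * t⁻¹ = g⁻¹) (h2 : ∀ g ∈ K, (s * t) * g * (s * t)⁻¹ = g⁻¹) :
    ∀ g ∈ K, s * g * s⁻¹ = g := by
  intro g hg
  have ht' : t⁻¹ = t := inv_eq_of_mul_eq_one_right ht
  have h3 : t⁻¹ * g * t = g⁻¹ := by
    have := h1 g hg
    rwa [ht'] at this ⊢
  have h4 : s * g * s⁻¹ = (s * t) * (t⁻¹ * g * t) * (s * t)⁻¹ := by group
  rw [h4, h3, h2 _ (K.inv_mem hg), inv_inv]

/-- From inversion by `s` and by `s t` we get that `t` centralises. -/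
lemma centralises_of_inv' {G : Type*} [Group G] (K : Subgroup G) {s t : G} (hs : s * s = 1)
    (h1 : ∀ g ∈ K, s * g * s⁻¹ = g⁻¹) (h2 : ∀ g ∈ K, (s * t) * g * (s * t)⁻¹ = g⁻¹)
    [K.Normal] :
    ∀ g ∈ K, t * g * t⁻¹ = g := by
  intro g hg
  have hg' : t * g * t⁻¹ ∈ K := (inferInstance : K.Normal).conj_mem g hg t
  have h3 : (s * t) * g * (s * t)⁻¹ = s * (t * g * t⁻¹) * s⁻¹ := by group
  have h4 := h2 g hg
  rw [h3, h1 _ hg'] at h4
  exact inv_injective h4

theorem lower_aux : ∃ B : ℕ → ℕ, (∀ C, C ≤ B C) ∧ ∀ (p q : ℕ), p.Prime → q.Prime → p % 4 = 3 →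
    q % 4 = 3 → B 128 < p → B (128 * p ^ 2) < q →
    ∀ (H : Type u) [Group H] [Finite H] (x y s t a b c : H), orderOf x = p → orderOf y = q →
    a * a = s → b * b = t → c * c = s * t → s * s = 1 → t * t = 1 →
    (s * t) * (s * t) ≠ 1 → ((s * t) * (s * t)) * ((s * t) * (s * t)) = 1 →
    s * x * s⁻¹ = x⁻¹ → t * x * t⁻¹ = x → s * y * s⁻¹ = y → t * y * t⁻¹ = y⁻¹ →
    128 * p ^ 2 * q ^ 2 ≤ Nat.card H := by
  obtain ⟨B, hB, hstr⟩ := structure_lemma'.{u}
  refine ⟨B, hB, ?_⟩
  intro p q hp hq hp4 hq4 hpB hqB H _ _ x y s t a b c hx hy ha hb hc hs ht hz1 hz2 hsx htx hsy hty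
  by_contra hlt
  push Not at hlt
  have hppos := hp.pos
  have hqp : p < q := by
    have h1 := hB (128 * p ^ 2)
    nlinarith
  have hp2 : 2 < p := by
    have := hp.two_le
    rcases Nat.eq_or_lt_of_le this with h | h
    · rw [← h] at hp4; omega
    · exact h
  have hq2 : 2 < q := by omega
  -- first prime
  obtain ⟨Q, hQn, hQc, hyQ, hQcomm, hQinv⟩ := hstr (128 * p ^ 2) q (by positivity) hq hq4 hqB H hlt
    y b hy (by rw [hb]; exact hty)
  have htQ : ∀ g ∈ Q, t * g * t⁻¹ = g⁻¹ := by
    have := hQinv b (by rw [hb]; exact hty)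
    rwa [hb] at this
  have hstQ : ∀ g ∈ Q, (s * t) * g * (s * t)⁻¹ = g⁻¹ := by
    have := hQinv c (by
      rw [hc]
      have e : (s * t) * y * (s * t)⁻¹ = s * (t * y * t⁻¹) * s⁻¹ := by group
      rw [e, hty, ← conj_inv, hsy])
    rwa [hc] at this
  have hsQ : ∀ g ∈ Q, s * g * s⁻¹ = g := centralises_of_inv Q ht htQ hstQ
  let π1 : H →* H ⧸ Q := QuotientGroup.mk' Q
  have hπ1 : ∀ g, π1 g = 1 ↔ g ∈ Q := fun g => QuotientGroup.eq_one_iff g
  have hcard1 : Nat.card H = Nat.card (H ⧸ Q) * Nat.card Q :=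
    Subgroup.card_eq_card_quotient_mul_card_subgroup Q
  have hlt1 : Nat.card (H ⧸ Q) < 128 * p ^ 2 := by
    rw [hcard1, hQc] at hlt
    exact Nat.lt_of_mul_lt_mul_right hlt
  have hx1 : orderOf (π1 x) = p := by
    have hd : orderOf (π1 x) ∣ p := by
      rw [← hx]; exact orderOf_map_dvd π1 x
    rcases hp.eq_one_or_self_of_dvd _ hd with h1 | h1
    · exfalso
      rw [orderOf_eq_one_iff, hπ1] at h1
      have h2 : orderOf x ∣ Nat.card Q := by
        rw [← Subgroup.orderOf_mk x h1]
        exact orderOf_dvd_natCard _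
      rw [hx, hQc] at h2
      have h3 := (Nat.prime_dvd_prime_iff_eq hp hq).mp (hp.dvd_of_dvd_pow h2)
      omega
    · exact h1
  have hsx1 : π1 s * π1 x * (π1 s)⁻¹ = (π1 x)⁻¹ := by
    rw [← map_mul, ← map_inv, ← map_mul, hsx, map_inv]
  have htx1 : π1 t * π1 x * (π1 t)⁻¹ = π1 x := by
    rw [← map_mul, ← map_inv, ← map_mul, htx]
  -- second prime
  obtain ⟨P, hPn, hPc, hxP, hPcomm, hPinv⟩ := hstr 128 p (by norm_num) hp hp4 hpB (H ⧸ Q) hlt1
    (π1 x) (π1 a) hx1 (by rw [← map_mul, ha]; exact hsx1)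
  have hsP : ∀ g ∈ P, π1 s * g * (π1 s)⁻¹ = g⁻¹ := by
    have := hPinv (π1 a) (by rw [← map_mul, ha]; exact hsx1)
    rwa [← map_mul, ha] at this
  have hstP : ∀ g ∈ P, (π1 s * π1 t) * g * (π1 s * π1 t)⁻¹ = g⁻¹ := by
    have := hPinv (π1 c) (by
      rw [← map_mul, hc, map_mul]
      have e : (π1 s * π1 t) * π1 x * (π1 s * π1 t)⁻¹ =
        π1 s * (π1 t * π1 x * (π1 t)⁻¹) * (π1 s)⁻¹ := by group
      rw [e, htx1, hsx1])
    rwa [← map_mul, hc, map_mul] at this
  have hs1 : π1 s * π1 s = 1 := by rw [← map_mul, hs, map_one]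
  have ht1 : π1 t * π1 t = 1 := by rw [← map_mul, ht, map_one]
  have htP : ∀ g ∈ P, π1 t * g * (π1 t)⁻¹ = g := centralises_of_inv' P hs1 hsP hstP
  let π2 : (H ⧸ Q) →* (H ⧸ Q) ⧸ P := QuotientGroup.mk' P
  have hπ2 : ∀ g, π2 g = 1 ↔ g ∈ P := fun g => QuotientGroup.eq_one_iff g
  have hcard2 : Nat.card (H ⧸ Q) = Nat.card ((H ⧸ Q) ⧸ P) * Nat.card P :=
    Subgroup.card_eq_card_quotient_mul_card_subgroup P
  have hlt2 : Nat.card ((H ⧸ Q) ⧸ P) < 128 := by
    rw [hcard2, hPc] at hlt1
    exact Nat.lt_of_mul_lt_mul_right hlt1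
  let π : H →* (H ⧸ Q) ⧸ P := π2.comp π1
  have hπsurj : Function.Surjective π :=
    (QuotientGroup.mk'_surjective P).comp (QuotientGroup.mk'_surjective Q)
  let N : Subgroup H :=
    Subgroup.centralizer (Q : Set H) ⊓ (Subgroup.centralizer (P : Set (H ⧸ Q))).comap π1
  have hNmem : ∀ g : H, g ∈ N ↔ (∀ u ∈ Q, g * u * g⁻¹ = u) ∧
      (∀ u ∈ P, π1 g * u * (π1 g)⁻¹ = u) := by
    intro g
    rw [Subgroup.mem_inf, Subgroup.mem_comap, Subgroup.mem_centralizer_iff,
      Subgroup.mem_centralizer_iff]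
    constructor
    · rintro ⟨h1, h2⟩
      exact ⟨fun u hu => by rw [← h1 u hu]; group, fun u hu => by rw [← h2 u hu]; group⟩
    · rintro ⟨h1, h2⟩
      exact ⟨fun u hu => (mul_inv_eq_iff_eq_mul.mp (h1 u hu)).symm,
        fun u hu => (mul_inv_eq_iff_eq_mul.mp (h2 u hu)).symm⟩
  have hNn : N.Normal := by
    refine ⟨fun n hn g => ?_⟩
    rw [hNmem] at hn ⊢
    obtain ⟨h1, h2⟩ := hn
    constructor
    · intro u hu
      have hu' : g⁻¹ * u * g ∈ Q := by
        have := hQn.conj_mem u hu g⁻¹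
        simpa using this
      have e : g * n * g⁻¹ * u * (g * n * g⁻¹)⁻¹ = g * (n * (g⁻¹ * u * g) * n⁻¹) * g⁻¹ := by group
      rw [e, h1 _ hu']; group
    · intro u hu
      have hu' : (π1 g)⁻¹ * u * π1 g ∈ P := by
        have := hPn.conj_mem u hu (π1 g)⁻¹
        simpa using this
      rw [map_mul, map_mul, map_inv]
      have e : π1 g * π1 n * (π1 g)⁻¹ * u * (π1 g * π1 n * (π1 g)⁻¹)⁻¹ =
        π1 g * (π1 n * ((π1 g)⁻¹ * u * π1 g) * (π1 n)⁻¹) * (π1 g)⁻¹ := by group
      rw [e, h2 _ hu']; group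
  have hX0n : (N.map π).Normal := hNn.map π hπsurj
  -- the element z
  have hzN : (s * t) * (s * t) ∈ N := by
    rw [hNmem]
    constructor
    · intro u hu
      have e : (s * t) * (s * t) * u * ((s * t) * (s * t))⁻¹ =
        (s * t) * ((s * t) * u * (s * t)⁻¹) * (s * t)⁻¹ := by group
      rw [e, hstQ u hu, hstQ _ (Q.inv_mem hu), inv_inv]
    · intro u hu
      rw [map_mul, map_mul]
      have e : (π1 s * π1 t) * (π1 s * π1 t) * u * ((π1 s * π1 t) * (π1 s * π1 t))⁻¹ =
        (π1 s * π1 t) * ((π1 s * π1 t) * u * (π1 s * π1 t)⁻¹) * (π1 s * π1 t)⁻¹ := by group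
      rw [e, hstP u hu, hstP _ (P.inv_mem hu), inv_inv]
  have hodd : ∀ {G : Type u} [Group G] [Finite G] (K : Subgroup G) (r : ℕ), r.Prime → 2 < r →
      Nat.card K = r ^ 2 → ∀ g ∈ K, g * g = 1 → g = 1 := by
    intro G _ _ K r hr hr2 hK g hg hgg
    have h1 : orderOf g ∣ r ^ 2 := by
      rw [← hK, ← Subgroup.orderOf_mk g hg]
      exact orderOf_dvd_natCard _
    have h2 : orderOf g ∣ 2 := orderOf_dvd_of_pow_eq_one (by rw [pow_two]; exact hgg)
    rw [← orderOf_eq_one_iff]
    apply Nat.eq_one_of_dvd_coprimes _ h1 h2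
    apply Nat.Coprime.pow_left
    rw [Nat.coprime_primes hr Nat.prime_two]
    omega
  have hπz1 : π ((s * t) * (s * t)) ≠ 1 := by
    intro h
    have h1 : π1 ((s * t) * (s * t)) ∈ P := (hπ2 _).mp h
    have h2 : π1 ((s * t) * (s * t)) = 1 := hodd P p hp hp2 hPc _ h1 (by
      rw [← map_mul, hz2, map_one])
    have h3 : (s * t) * (s * t) ∈ Q := (hπ1 _).mp h2
    exact hz1 (hodd Q q hq hq2 hQc _ h3 hz2)
  -- s and s t are not in X0
  have hnotP : ∀ r : H, (∀ g ∈ P, π1 r * g * (π1 r)⁻¹ = g⁻¹) → π r ∉ N.map π := by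
    rintro r hr ⟨n, hn, hnr⟩
    have hn' := ((hNmem n).mp hn).2
    have hk : (π1 n)⁻¹ * π1 r ∈ P := by
      rw [← hπ2, map_mul, map_inv]
      have : π2 (π1 n) = π2 (π1 r) := hnr
      rw [this, inv_mul_cancel]
    have h1 := hPcomm _ hk _ hxP
    have h2 : (π1 n)⁻¹ * π1 r * π1 x * ((π1 n)⁻¹ * π1 r)⁻¹ = π1 x := by
      rw [h1]; group
    have h3 : (π1 n)⁻¹ * π1 r * π1 x * ((π1 n)⁻¹ * π1 r)⁻¹ =
      (π1 n)⁻¹ * (π1 r * π1 x * (π1 r)⁻¹) * π1 n := by group
    rw [h3, hr _ hxP] at h2
    have h4 := hn' _ (P.inv_mem hxP)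
    have h5 : (π1 n)⁻¹ * (π1 x)⁻¹ * π1 n = (π1 x)⁻¹ := by
      nth_rewrite 1 [← h4]; group
    rw [h5] at h2
    have h6 : π1 x * π1 x = 1 := by
      nth_rewrite 1 [← h2]; group
    have h7 := hodd P p hp hp2 hPc _ hxP h6
    rw [h7, orderOf_one] at hx1
    omega
  have hs0 : π s ∉ N.map π := hnotP s hsP
  have hst0 : π s * π t ∉ N.map π := by
    rw [← map_mul]
    apply hnotP
    rw [map_mul]
    exact hstP
  have ht0 : π t ∉ N.map π := by
    rintro ⟨n, hn, hnt⟩
    have hn' := ((hNmem n).mp hn).1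
    set k := n⁻¹ * t with hk
    have hkP : π1 k ∈ P := by
      rw [← hπ2, hk, map_mul, map_mul, map_inv, map_inv]
      have : π2 (π1 n) = π2 (π1 t) := hnt
      rw [this, inv_mul_cancel]
    have hky : k * y * k⁻¹ = y⁻¹ := by
      have h3 : k * y * k⁻¹ = n⁻¹ * (t * y * t⁻¹) * n := by rw [hk]; group
      rw [h3, hty]
      have h4 := hn' _ (Q.inv_mem hyQ)
      nth_rewrite 1 [← h4]; group
    have hkpow : k ^ (p ^ 2) ∈ Q := by
      rw [← hπ1, map_pow]
      have : (⟨π1 k, hkP⟩ : P) ^ (p ^ 2) = 1 := by rw [← hPc]; exact pow_card_eq_one'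
      exact congrArg Subtype.val this
    obtain ⟨j, hj⟩ : Odd (p ^ 2) := (hp.odd_of_ne_two (by omega)).pow
    have hkk : Commute (k * k) y := by
      have : (k * k) * y * (k * k)⁻¹ = y := by
        have e : (k * k) * y * (k * k)⁻¹ = k * (k * y * k⁻¹) * k⁻¹ := by group
        rw [e, hky, ← conj_inv, hky, inv_inv]
      exact mul_inv_eq_iff_eq_mul.mp this
    have hkj : Commute ((k * k) ^ j) y := hkk.pow_left j
    have h5 : k ^ (p ^ 2) = (k * k) ^ j * k := by
      rw [hj, pow_succ, ← pow_two, pow_mul]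
    have h6 : k ^ (p ^ 2) * y * (k ^ (p ^ 2))⁻¹ = y⁻¹ := by
      rw [h5]
      have e : (k * k) ^ j * k * y * ((k * k) ^ j * k)⁻¹ = (k * k) ^ j * (k * y * k⁻¹) * ((k * k) ^ j)⁻¹ := by
        group
      rw [e, hky, hkj.inv_right.eq]; group
    have h7 := hQcomm _ hkpow _ hyQ
    rw [h7] at h6
    have h8 : y * k ^ p ^ 2 * (k ^ p ^ 2)⁻¹ = y := by group
    rw [h8] at h6
    have h9 : y * y = 1 := by
      nth_rewrite 1 [h6]; group
    have h10 := hodd Q q hq hq2 hQc _ hyQ h9
    rw [h10, orderOf_one] at hy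
    omega
  have hcomms : ∀ h, π s * h * (π s)⁻¹ * h⁻¹ ∈ N.map π := by
    intro h
    obtain ⟨h, rfl⟩ := hπsurj h
    refine ⟨s * h * s⁻¹ * h⁻¹, ?_, by simp only [map_mul, map_inv]⟩
    change s * h * s⁻¹ * h⁻¹ ∈ N
    rw [hNmem]
    refine ⟨comm_centralises Q hs (Or.inl hsQ) h, ?_⟩
    rw [map_mul, map_mul, map_mul, map_inv, map_inv]
    exact comm_centralises P hs1 (Or.inr hsP) (π1 h)
  have hcommt : ∀ h, π t * h * (π t)⁻¹ * h⁻¹ ∈ N.map π := by
    intro h
    obtain ⟨h, rfl⟩ := hπsurj h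
    refine ⟨t * h * t⁻¹ * h⁻¹, ?_, by simp only [map_mul, map_inv]⟩
    change t * h * t⁻¹ * h⁻¹ ∈ N
    rw [hNmem]
    refine ⟨comm_centralises Q ht (Or.inr htQ) h, ?_⟩
    rw [map_mul, map_mul, map_mul, map_inv, map_inv]
    exact comm_centralises P ht1 (Or.inl htP) (π1 h)
  have hfinal := lemB (N.map π) (a := π a) (b := π b) (c := π c) (s := π s) (t := π t)
    (z := (π s * π t) * (π s * π t))
    (by rw [← map_mul, ha]) (by rw [← map_mul, hb]) (by rw [← map_mul, hc, map_mul])
    (by rw [← map_mul, hs, map_one]) (by rw [← map_mul, ht, map_one]) rfl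
    (by rw [← map_mul, ← map_mul]; exact hπz1)
    (by rw [← map_mul, ← map_mul, ← map_mul, hz2, map_one])
    (by rw [← map_mul, ← map_mul]; exact ⟨_, hzN, rfl⟩)
    hs0 ht0 hst0 hcomms hcommt
  omega

end part_Lo

section part_Fin

/-- The least order of a finite group `H` with an injective homomorphism `ι : G → H` such that
every element of the image is a square in `H`. -/
noncomputable def minOver (G : Type) [Group G] : ℕ :=
  sInf {n : ℕ | ∃ (H : Type) (_ : Group H) (_ : Finite H) (ι : G →* H),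
    Function.Injective ι ∧ (∀ g : G, ∃ h : H, h ^ 2 = ι g) ∧ Nat.card H = n}

/-- the supremum of `m(G)/|G|^2` over the groups `G` of order `n` -/
noncomputable def ratioSup (n : ℕ) : ℝ :=
  sSup {r : ℝ | ∃ (G : Type) (_ : Group G) (_ : Finite G), Nat.card G = n ∧
    r = (minOver G : ℝ) / (Nat.card G : ℝ) ^ 2}

/-- `c* = limsup_{|G| → ∞} m(G)/|G|^2` -/
noncomputable def cStar : ℝ := Filter.limsup ratioSup Filter.atTop

section upper

variable (G : Type) [Group G]

/-- the diagonal embedding in the wreath product -/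
def diagEmb : G →* RegularWreathProduct G (Multiplicative (ZMod 2)) where
  toFun g := ⟨fun _ => g, 1⟩
  map_one' := rfl
  map_mul' a b := by
    rw [RegularWreathProduct.mul_def]
    simp
    rfl

lemma diagEmb_inj : Function.Injective (diagEmb G) := by
  intro a b h
  have := congrArg (fun w : RegularWreathProduct G (Multiplicative (ZMod 2)) => w.1 1) h
  exact this

lemma diagEmb_sq (g : G) : ∃ h, h ^ 2 = diagEmb G g := by
  classical
  refine ⟨⟨fun q => if q = 1 then g else 1, Multiplicative.ofAdd 1⟩, ?_⟩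
  rw [pow_two, RegularWreathProduct.mul_def]
  change (⟨_, _⟩ : RegularWreathProduct G (Multiplicative (ZMod 2))) = ⟨fun _ => g, 1⟩
  congr 1
  · ext q
    have hq : q = 1 ∨ q = Multiplicative.ofAdd 1 := by
      revert q; decide
    rcases hq with rfl | rfl
    · simp
    · simp
  · change (Multiplicative.ofAdd (1 : ZMod 2)) * Multiplicative.ofAdd 1 = 1
    decide

lemma minOver_le [Finite G] : minOver G ≤ 2 * Nat.card G ^ 2 := by
  apply Nat.sInf_le
  refine ⟨RegularWreathProduct G (Multiplicative (ZMod 2)), inferInstance, inferInstance,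
    diagEmb G, diagEmb_inj G, diagEmb_sq G, ?_⟩
  rw [RegularWreathProduct.card]
  have : Nat.card (Multiplicative (ZMod 2)) = 2 := by simp
  rw [this, mul_comm]

lemma exists_minOver [Finite G] : ∃ (H : Type) (_ : Group H) (_ : Finite H) (ι : G →* H),
    Function.Injective ι ∧ (∀ g : G, ∃ h : H, h ^ 2 = ι g) ∧ Nat.card H = minOver G := by
  have hne : {n : ℕ | ∃ (H : Type) (_ : Group H) (_ : Finite H) (ι : G →* H),
    Function.Injective ι ∧ (∀ g : G, ∃ h : H, h ^ 2 = ι g) ∧ Nat.card H = n}.Nonempty :=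
    ⟨_, RegularWreathProduct G (Multiplicative (ZMod 2)), inferInstance, inferInstance,
      diagEmb G, diagEmb_inj G, diagEmb_sq G, rfl⟩
  exact Nat.sInf_mem hne

end upper

section family

/-- the sign character of a dihedral group -/
def sgn (n : ℕ) : DihedralGroup n →* ℤˣ where
  toFun
    | DihedralGroup.r _ => 1
    | DihedralGroup.sr _ => -1
  map_one' := rfl
  map_mul' := by
    rintro (a | a) (b | b) <;> simp

lemma sgn_r (n : ℕ) (i : ZMod n) : sgn n (DihedralGroup.r i) = 1 := rfl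
lemma sgn_sr (n : ℕ) (i : ZMod n) : sgn n (DihedralGroup.sr i) = -1 := rfl

/-- first character of the dihedral group of order eight -/
def chi1 : DihedralGroup 4 →* ℤˣ where
  toFun
    | DihedralGroup.r i => (-1) ^ i.val
    | DihedralGroup.sr i => (-1) ^ (i.val + 1)
  map_one' := rfl
  map_mul' := by decide

/-- second character of the dihedral group of order eight -/
def chi2 : DihedralGroup 4 →* ℤˣ where
  toFun
    | DihedralGroup.r i => (-1) ^ i.val
    | DihedralGroup.sr i => (-1) ^ i.val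
  map_one' := rfl
  map_mul' := by decide

/-- the homomorphism whose kernel is our group -/
def bigHom (p q : ℕ) : DihedralGroup p × DihedralGroup q × DihedralGroup 4 →* ℤˣ × ℤˣ where
  toFun w := (sgn p w.1 * chi1 w.2.2, sgn q w.2.1 * chi2 w.2.2)
  map_one' := by simp
  map_mul' a b := by
    simp only [Prod.fst_mul, Prod.snd_mul, map_mul, Prod.mk_mul_mk, Prod.mk.injEq]
    constructor <;> exact mul_mul_mul_comm _ _ _ _

lemma bigHom_apply (p q : ℕ) (a : DihedralGroup p) (b : DihedralGroup q) (c : DihedralGroup 4) :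
    bigHom p q (a, b, c) = (sgn p a * chi1 c, sgn q b * chi2 c) := rfl

lemma chi1_s : chi1 (DihedralGroup.sr 0) = -1 := by decide
lemma chi2_s : chi2 (DihedralGroup.sr 0) = 1 := by decide
lemma chi1_t : chi1 (DihedralGroup.sr 1) = 1 := by decide
lemma chi2_t : chi2 (DihedralGroup.sr 1) = -1 := by decide

lemma bigHom_surj (p q : ℕ) : Function.Surjective (bigHom p q) := by
  rintro ⟨u, v⟩
  rcases Int.units_eq_one_or u with rfl | rfl <;> rcases Int.units_eq_one_or v with rfl | rfl
  · exact ⟨(1, 1, 1), by rw [bigHom_apply]; simp⟩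
  · exact ⟨(1, DihedralGroup.sr 0, 1), by rw [bigHom_apply]; simp [sgn_sr]⟩
  · exact ⟨(DihedralGroup.sr 0, 1, 1), by rw [bigHom_apply]; simp [sgn_sr]⟩
  · exact ⟨(DihedralGroup.sr 0, DihedralGroup.sr 0, 1), by rw [bigHom_apply]; simp [sgn_sr]⟩

/-- The group `(C_p × C_q) ⋊ D_4`. -/
abbrev Fam (p q : ℕ) : Type := (bigHom p q).ker

instance (p q : ℕ) [NeZero p] [NeZero q] : Finite (Fam p q) := by
  unfold Fam
  have : Finite (DihedralGroup p) := inferInstance
  have : Finite (DihedralGroup q) := inferInstance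
  have : Finite (DihedralGroup 4) := inferInstance
  infer_instance

lemma card_fam (p q : ℕ) [NeZero p] [NeZero q] : Nat.card (Fam p q) = 8 * p * q := by
  have h1 := (bigHom p q).ker.card_mul_index
  rw [Subgroup.index_ker, MonoidHom.range_eq_top.mpr (bigHom_surj p q)] at h1
  have h2 : Nat.card (⊤ : Subgroup (ℤˣ × ℤˣ)) = 4 := by
    rw [Subgroup.card_top]; simp
  have h3 : Nat.card (DihedralGroup p × DihedralGroup q × DihedralGroup 4) = 32 * p * q := by
    rw [Nat.card_prod, Nat.card_prod, DihedralGroup.nat_card, DihedralGroup.nat_card,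
      DihedralGroup.nat_card]
    ring
  rw [h2, h3] at h1
  have h4 : Nat.card (Fam p q) * 4 = 32 * p * q := h1
  have h5 : 32 * p * q = (8 * p * q) * 4 := by ring
  rw [h5] at h4
  exact Nat.mul_right_cancel (by norm_num) h4

/-- generators -/
def gx (p q : ℕ) : Fam p q := ⟨(DihedralGroup.r 1, 1, 1), by
  rw [MonoidHom.mem_ker, bigHom_apply]; simp [sgn_r]⟩
def gy (p q : ℕ) : Fam p q := ⟨(1, DihedralGroup.r 1, 1), by
  rw [MonoidHom.mem_ker, bigHom_apply]; simp [sgn_r]⟩
def gs (p q : ℕ) : Fam p q := ⟨(DihedralGroup.sr 0, 1, DihedralGroup.sr 0), by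
  rw [MonoidHom.mem_ker, bigHom_apply]; simp [sgn_sr, chi1_s, chi2_s]⟩
def gt (p q : ℕ) : Fam p q := ⟨(1, DihedralGroup.sr 0, DihedralGroup.sr 1), by
  rw [MonoidHom.mem_ker, bigHom_apply]; simp [sgn_sr, chi1_t, chi2_t]⟩

lemma orderOf_gx (p q : ℕ) : orderOf (gx p q) = p := by
  rw [← Subgroup.orderOf_coe]
  change orderOf ((DihedralGroup.r 1, 1, 1) : DihedralGroup p × DihedralGroup q × DihedralGroup 4) = p
  rw [Prod.orderOf, Prod.orderOf]
  simp [DihedralGroup.orderOf_r_one]

lemma orderOf_gy (p q : ℕ) : orderOf (gy p q) = q := by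
  rw [← Subgroup.orderOf_coe]
  change orderOf ((1, DihedralGroup.r 1, 1) : DihedralGroup p × DihedralGroup q × DihedralGroup 4) = q
  rw [Prod.orderOf, Prod.orderOf]
  simp [DihedralGroup.orderOf_r_one]

lemma gs_sq (p q : ℕ) : gs p q * gs p q = 1 := by
  ext1
  change (DihedralGroup.sr 0 * DihedralGroup.sr 0, 1 * 1, DihedralGroup.sr 0 * DihedralGroup.sr 0) =
    ((1, 1, 1) : DihedralGroup p × DihedralGroup q × DihedralGroup 4)
  simp [DihedralGroup.sr_mul_sr]

lemma gt_sq (p q : ℕ) : gt p q * gt p q = 1 := by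
  ext1
  change (1 * 1, DihedralGroup.sr 0 * DihedralGroup.sr 0, DihedralGroup.sr 1 * DihedralGroup.sr 1) =
    ((1, 1, 1) : DihedralGroup p × DihedralGroup q × DihedralGroup 4)
  simp [DihedralGroup.sr_mul_sr]

lemma z_ne (p q : ℕ) : (gs p q * gt p q) * (gs p q * gt p q) ≠ 1 := by
  intro h
  have h1 := congrArg (fun w : Fam p q => w.1.2.2) h
  have h2 : (DihedralGroup.sr 0 * DihedralGroup.sr 1) * (DihedralGroup.sr 0 * DihedralGroup.sr 1) =
    (1 : DihedralGroup 4) := h1
  revert h2
  decide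

lemma z_sq (p q : ℕ) : ((gs p q * gt p q) * (gs p q * gt p q)) *
    ((gs p q * gt p q) * (gs p q * gt p q)) = 1 := by
  ext1
  change (((DihedralGroup.sr 0 * 1) * (DihedralGroup.sr 0 * 1)) *
      ((DihedralGroup.sr 0 * 1) * (DihedralGroup.sr 0 * 1)),
    ((1 * DihedralGroup.sr 0) * (1 * DihedralGroup.sr 0)) *
      ((1 * DihedralGroup.sr 0) * (1 * DihedralGroup.sr 0)),
    ((DihedralGroup.sr 0 * DihedralGroup.sr 1) * (DihedralGroup.sr 0 * DihedralGroup.sr 1)) *
      ((DihedralGroup.sr 0 * DihedralGroup.sr 1) * (DihedralGroup.sr 0 * DihedralGroup.sr 1))) =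
    ((1, 1, 1) : DihedralGroup p × DihedralGroup q × DihedralGroup 4)
  have h3 : ((DihedralGroup.sr 0 * DihedralGroup.sr 1) * (DihedralGroup.sr 0 * DihedralGroup.sr 1)) *
      ((DihedralGroup.sr 0 * DihedralGroup.sr 1) * (DihedralGroup.sr 0 * DihedralGroup.sr 1)) =
      (1 : DihedralGroup 4) := by decide
  rw [h3]
  simp [DihedralGroup.sr_mul_sr]

lemma rel_sx (p q : ℕ) : gs p q * gx p q * (gs p q)⁻¹ = (gx p q)⁻¹ := by
  rw [mul_inv_eq_iff_eq_mul]
  ext1
  change (DihedralGroup.sr 0 * DihedralGroup.r 1, 1 * 1, DihedralGroup.sr 0 * 1) =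
    (((DihedralGroup.r 1)⁻¹ * DihedralGroup.sr 0, 1⁻¹ * 1, 1⁻¹ * DihedralGroup.sr 0) :
      DihedralGroup p × DihedralGroup q × DihedralGroup 4)
  simp

lemma rel_tx (p q : ℕ) : gt p q * gx p q * (gt p q)⁻¹ = gx p q := by
  rw [mul_inv_eq_iff_eq_mul]
  ext1
  change (1 * DihedralGroup.r 1, DihedralGroup.sr 0 * 1, DihedralGroup.sr 1 * 1) =
    ((DihedralGroup.r 1 * 1, 1 * DihedralGroup.sr 0, 1 * DihedralGroup.sr 1) :
      DihedralGroup p × DihedralGroup q × DihedralGroup 4)
  simp

lemma rel_sy (p q : ℕ) : gs p q * gy p q * (gs p q)⁻¹ = gy p q := by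
  rw [mul_inv_eq_iff_eq_mul]
  ext1
  change (DihedralGroup.sr 0 * 1, 1 * DihedralGroup.r 1, DihedralGroup.sr 0 * 1) =
    ((1 * DihedralGroup.sr 0, DihedralGroup.r 1 * 1, 1 * DihedralGroup.sr 0) :
      DihedralGroup p × DihedralGroup q × DihedralGroup 4)
  simp

lemma rel_ty (p q : ℕ) : gt p q * gy p q * (gt p q)⁻¹ = (gy p q)⁻¹ := by
  rw [mul_inv_eq_iff_eq_mul]
  ext1
  change (1 * 1, DihedralGroup.sr 0 * DihedralGroup.r 1, DihedralGroup.sr 1 * 1) =
    ((1⁻¹ * 1, (DihedralGroup.r 1)⁻¹ * DihedralGroup.sr 0, 1⁻¹ * DihedralGroup.sr 1) :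
      DihedralGroup p × DihedralGroup q × DihedralGroup 4)
  simp

end family

theorem exists_large (N : ℕ) : ∃ (G : Type) (_ : Group G) (_ : Finite G),
    N ≤ Nat.card G ∧ minOver G = 2 * Nat.card G ^ 2 := by
  obtain ⟨B, hB, hlow⟩ := lower_aux.{0}
  obtain ⟨p, hpB, hp, hp4⟩ := Nat.forall_exists_prime_gt_and_modEq (B 128) (q := 4) (a := 3)
    (by norm_num) (by norm_num)
  obtain ⟨q, hqB, hq, hq4⟩ := Nat.forall_exists_prime_gt_and_modEq (B (128 * p ^ 2) + N) (q := 4)
    (a := 3) (by norm_num) (by norm_num)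
  have hp4' : p % 4 = 3 := hp4
  have hq4' : q % 4 = 3 := hq4
  have : NeZero p := ⟨hp.ne_zero⟩
  have : NeZero q := ⟨hq.ne_zero⟩
  have hcard := card_fam p q
  refine ⟨Fam p q, inferInstance, inferInstance, ?_, ?_⟩
  · rw [hcard]
    have := hp.pos
    nlinarith
  · apply le_antisymm (minOver_le _)
    obtain ⟨H, hgr, hfin, ι, hinj, hsq, hH⟩ := exists_minOver (Fam p q)
    rw [← hH]
    obtain ⟨a, ha⟩ := hsq (gs p q)
    obtain ⟨b, hb⟩ := hsq (gt p q)
    obtain ⟨c, hc⟩ := hsq (gs p q * gt p q)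
    have := hlow p q hp hq hp4' hq4' hpB (by omega) H (ι (gx p q)) (ι (gy p q)) (ι (gs p q))
      (ι (gt p q)) a b c
      (by rw [orderOf_injective ι hinj, orderOf_gx])
      (by rw [orderOf_injective ι hinj, orderOf_gy])
      (by rw [← pow_two, ha]) (by rw [← pow_two, hb]) (by rw [← pow_two, hc, map_mul])
      (by rw [← map_mul, gs_sq, map_one]) (by rw [← map_mul, gt_sq, map_one])
      (by rw [← map_mul, ← map_mul, Ne, ← map_one ι]; exact fun h => z_ne p q (hinj h))
      (by rw [← map_mul, ← map_mul, ← map_mul, z_sq, map_one])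
      (by rw [← map_mul, ← map_inv, ← map_mul, rel_sx, map_inv])
      (by rw [← map_mul, ← map_inv, ← map_mul, rel_tx])
      (by rw [← map_mul, ← map_inv, ← map_mul, rel_sy])
      (by rw [← map_mul, ← map_inv, ← map_mul, rel_ty, map_inv])
    calc 2 * Nat.card (Fam p q) ^ 2 = 128 * p ^ 2 * q ^ 2 := by rw [hcard]; ring
      _ ≤ _ := this

lemma ratio_le (G : Type) [Group G] [Finite G] :
    (minOver G : ℝ) / (Nat.card G : ℝ) ^ 2 ≤ 2 := by
  have h0 : (0 : ℝ) < (Nat.card G : ℝ) ^ 2 := by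
    have : 0 < Nat.card G := Nat.card_pos
    positivity
  rw [div_le_iff₀ h0]
  exact_mod_cast minOver_le G

lemma ratioSup_le (n : ℕ) : ratioSup n ≤ 2 := by
  apply Real.sSup_le
  · rintro r ⟨G, _, _, _, rfl⟩
    exact ratio_le G
  · norm_num

lemma ratioSup_nonneg (n : ℕ) : 0 ≤ ratioSup n := by
  apply Real.sSup_nonneg
  rintro r ⟨G, _, _, _, rfl⟩
  positivity

lemma le_ratioSup (G : Type) [Group G] [Finite G] :
    (minOver G : ℝ) / (Nat.card G : ℝ) ^ 2 ≤ ratioSup (Nat.card G) := by
  apply le_csSup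
  · refine ⟨2, ?_⟩
    rintro r ⟨G, _, _, _, rfl⟩
    exact ratio_le G
  · exact ⟨G, inferInstance, inferInstance, rfl, rfl⟩

theorem cStar_eq : cStar = 2 := by
  unfold cStar
  apply le_antisymm
  · apply Filter.limsup_le_of_le
    · exact Filter.isCoboundedUnder_le_of_le Filter.atTop ratioSup_nonneg
    · exact Filter.Eventually.of_forall ratioSup_le
  · apply Filter.le_limsup_of_frequently_le
    · rw [Filter.frequently_atTop]
      intro N
      obtain ⟨G, hG, hF, hN, hm⟩ := exists_large N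
      refine ⟨Nat.card G, hN, ?_⟩
      refine le_trans (le_of_eq ?_) (le_ratioSup G)
      rw [hm]
      have : (Nat.card G : ℝ) ≠ 0 := by exact_mod_cast Nat.card_pos.ne'
      push_cast
      field_simp
    · exact Filter.isBoundedUnder_of ⟨2, ratioSup_le⟩

end part_Fin

/-- The infimum of the real constants `c` such that `m(G) ≤ c |G|^2` for every finite group `G`
of sufficiently large order. -/
noncomputable def cInf : ℝ :=
  sInf {c : ℝ | ∃ N : ℕ, ∀ (G : Type) [Group G] [Finite G], N ≤ Nat.card G →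
    (minOver G : ℝ) ≤ c * (Nat.card G : ℝ) ^ 2}

theorem cInf_eq : cInf = 2 := by
  unfold cInf
  apply le_antisymm
  · apply csInf_le
    · refine ⟨2, ?_⟩
      rintro c ⟨N, hc⟩
      obtain ⟨G, hG, hF, hN, hm⟩ := exists_large N
      have h1 := hc G hN
      rw [hm] at h1
      have h0 : (0 : ℝ) < (Nat.card G : ℝ) ^ 2 := by
        have : 0 < Nat.card G := Nat.card_pos
        positivity
      push_cast at h1
      exact le_of_mul_le_mul_right h1 h0
    · refine ⟨0, ?_⟩
      intro G _ _ _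
      exact_mod_cast minOver_le G
  · apply le_csInf
    · refine ⟨2, 0, ?_⟩
      intro G _ _ _
      exact_mod_cast minOver_le G
    · rintro c ⟨N, hc⟩
      obtain ⟨G, hG, hF, hN, hm⟩ := exists_large N
      have h1 := hc G hN
      rw [hm] at h1
      have h0 : (0 : ℝ) < (Nat.card G : ℝ) ^ 2 := by
        have : 0 < Nat.card G := Nat.card_pos
        positivity
      push_cast at h1
      exact le_of_mul_le_mul_right h1 h0

end Pool.Agent.Results.MP_a87126_al.Sharp

/-- `c* = 2`, in both of its equivalent forms, and there are finite groups `G` of arbitrarily large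
order with `m(G) = 2 |G|^2`. -/
theorem Pool.Agent.Results.MP_a87126_al.Sharp.result :
    Pool.Agent.Results.MP_a87126_al.Sharp.cStar = 2 ∧
    Pool.Agent.Results.MP_a87126_al.Sharp.cInf = 2 ∧
    ∀ N : ℕ, ∃ (G : Type) (_ : Group G) (_ : Finite G),
      N ≤ Nat.card G ∧
        Pool.Agent.Results.MP_a87126_al.Sharp.minOver G = 2 * Nat.card G ^ 2 :=
  ⟨Pool.Agent.Results.MP_a87126_al.Sharp.cStar_eq, Pool.Agent.Results.MP_a87126_al.Sharp.cInf_eq,
    Pool.Agent.Results.MP_a87126_al.Sharp.exists_large⟩
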